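import Pool.Agent.TH216.EP.GenF
import Pool.Agent.W206.CU.Pole

/-!
# Generic coefficients up to the action of the torus

The theorem `TH216.EP.gen_ordF0` for coefficients which are generic up to a rational torus element
fixing `h`. The proof is the one of `gen_ordF0`; only the Bernstein-Sato polynomials and the
nondegeneracy are transported by the torus element.
-/

set_option autoImplicit false
set_option linter.unusedVariables false

namespace Pool.Agent.Y229.PA

open MvPolynomial Pool.Agent.TH216.MF Pool.Agent.TH216.EP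
open Pool.Agent.H628R4.TP Pool.Agent.W425.MM Pool.Agent.W425.GN
open Pool.Agent.W425.ND (spa)
open Pool.Agent.W426.SM (gord IsRay face)
open Pool.Agent.W206.CU (poincare IsPoleOfOrder pole_ne_zero isBFunction_iso)
open Pool.Agent.W425.BF (B1 BD hz hz_support hz_eq cof gen_rootsJ shf shf_eval shf_ne)
open Pool.Agent.W425.SV (NP RelV Kil1)
open Pool.Agent.W425.PN (qpoly idn_of)

variable {r N : ℕ}

/-- the condition of nondegeneracy is invariant under the torus -/
theorem nonD_scale {m : Fin r → Fin N → ℕ} {c : Fin r → ℂ} (s : Fin N → ℂ) (hs : ∀ i, s i ≠ 0)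
    (h : NonD m (fun j => c j * ∏ i, s i ^ m j i)) : NonD m c := by
  intro u z hz h0
  have e : ∀ j, (∏ i, s i ^ m j i) * (∏ i, (z i / s i) ^ m j i) = ∏ i, z i ^ m j i := by
    intro j
    rw [← Finset.prod_mul_distrib]
    refine Finset.prod_congr rfl fun i _ => ?_
    rw [← mul_pow, mul_div_cancel₀ _ (hs i)]
  obtain ⟨i, hi⟩ := h u (fun i => z i / s i) (fun i => div_ne_zero (hz i) (hs i)) (by
    refine Eq.trans (Finset.sum_congr rfl fun j _ => ?_) h0
    simp only [mul_assoc]
    rw [e])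
  refine ⟨i, fun h1 => hi ?_⟩
  refine Eq.trans (Finset.sum_congr rfl fun j _ => ?_) h1
  have e2 : c j * (∏ i, s i ^ m j i) * ((m j i : ℂ) * ∏ i, (z i / s i) ^ m j i) =
      c j * ((m j i : ℂ) * ∏ i, z i ^ m j i) := by
    rw [← e j]
    ring
  simp only [e2]

/-- scaling of the variables -/
noncomputable def scl (s : Fin N → ℂ) (hs : ∀ i, s i ≠ 0) :
    MvPolynomial (Fin N) ℂ ≃ₐ[ℂ] MvPolynomial (Fin N) ℂ :=
  AlgEquiv.ofAlgHom (aeval fun i => C (s i) * X i) (aeval fun i => C (s i)⁻¹ * X i)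
    (by
      apply MvPolynomial.algHom_ext
      intro i
      rw [AlgHom.comp_apply, aeval_X, map_mul, algHom_C, aeval_X, algebraMap_eq, ← mul_assoc,
        ← C_mul, inv_mul_cancel₀ (hs i), C_1, one_mul]
      rfl)
    (by
      apply MvPolynomial.algHom_ext
      intro i
      rw [AlgHom.comp_apply, aeval_X, map_mul, algHom_C, aeval_X, algebraMap_eq, ← mul_assoc,
        ← C_mul, mul_inv_cancel₀ (hs i), C_1, one_mul]
      rfl)

theorem scl_X (s : Fin N → ℂ) (hs : ∀ i, s i ≠ 0) (i : Fin N) : scl s hs (X i) = C (s i) * X i :=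
  aeval_X _ _

theorem scl_C (s : Fin N → ℂ) (hs : ∀ i, s i ≠ 0) (c : ℂ) : scl s hs (C c) = C c :=
  (scl s hs).commutes c

theorem scl_spa (s : Fin N → ℂ) (hs : ∀ i, s i ≠ 0) (v : Fin r → Fin N → ℕ) (c : Fin r → ℂ) :
    scl s hs (spa v c) = spa v (fun j => c j * ∏ i, s i ^ v j i) := by
  unfold spa
  rw [map_sum]
  refine Finset.sum_congr rfl fun j _ => ?_
  rw [map_mul, map_prod, scl_C, C_mul, mul_assoc, map_prod, ← Finset.prod_mul_distrib]
  congr 1
  refine Finset.prod_congr rfl fun i _ => ?_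
  rw [map_pow, scl_X, mul_pow, map_pow]

theorem scl_fix (s : Fin N → ℂ) (hs : ∀ i, s i ≠ 0) (h : MvPolynomial (Fin N) ℂ)
    (hh : ∀ w ∈ h.support, ∏ i, s i ^ w i = 1) : scl s hs h = h := by
  conv_lhs => rw [h.as_sum]
  conv_rhs => rw [h.as_sum]
  rw [map_sum]
  refine Finset.sum_congr rfl fun w hw => ?_
  rw [MvPolynomial.monomial_eq, map_mul, scl_C, Finsupp.prod_fintype _ _ (fun _ => pow_zero _),
    map_prod]
  congr 1
  have e : ∀ i, scl s hs (X i ^ w i) = C (s i ^ w i) * X i ^ w i := by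
    intro i
    rw [map_pow, scl_X, mul_pow, map_pow]
  rw [Finset.prod_congr rfl fun i _ => e i, Finset.prod_mul_distrib, ← map_prod, hh w hw, C_1,
    one_mul]

theorem gen_ordT (hr : 0 < r)
    (v : Fin r → Fin N → ℕ) (hv : Function.Injective v) (hv0 : ∀ j, v j ≠ 0)
    (h : MvPolynomial (Fin N) ℤ) (hh : ∀ w ∈ h.support, NP v w)
    (hvh : ∀ w ∈ h.support, ∀ j, ¬ ∀ x, w x = v j x) :
    ∃ g : MvPolynomial (Fin r) ℚ, g ≠ 0 ∧ ∀ (c : Fin r → ℤ) (t : Fin N → ℚ), (∀ i, t i ≠ 0) →
      (∀ w ∈ h.support, ∏ i, t i ^ w i = 1) →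
      eval (fun j => (c j : ℚ) * ∏ i, t i ^ v j i) g ≠ 0 → ConcF v h c := by
  classical
  have hne : NeZero r := ⟨by omega⟩
  set hQ : MvPolynomial (Fin N) ℚ := MvPolynomial.map (Int.castRingHom ℚ) h with hhQ
  have hsub : ∀ w ∈ hQ.support, w ∈ h.support := fun w hw =>
    MvPolynomial.support_map_subset _ _ hw
  have hsup : ∀ w ∈ h.support, w ∈ hQ.support := by
    intro w hw
    rw [mem_support_iff] at hw ⊢
    rw [hhQ, coeff_map]
    intro h0
    apply hw
    have h1 : ((coeff w h : ℤ) : ℚ) = 0 := h0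
    exact_mod_cast h1
  have hhq : ∀ w ∈ hQ.support, NP v w := fun w hw => hh w (hsub w hw)
  obtain ⟨g0, hg0, hgb⟩ := univ pF4 pR1 hr v hv hQ
  obtain ⟨g1, hg1, h1⟩ := gen_rootsJ hr v hv hv0 hQ hhq
  obtain ⟨g2, hg2, h2⟩ := gen_nonDF pF4 hr v (weZ h) (we_npZ v h hh)
    (fun l => ((wcZ h l : ℤ) : ℚ))
  have hg3 : (∏ j : Fin r, (X j : MvPolynomial (Fin r) ℚ)) ≠ 0 :=
    Finset.prod_ne_zero_iff.2 fun j _ => X_ne_zero j
  refine ⟨g0 * g1 * g2 * ∏ j : Fin r, (X j : MvPolynomial (Fin r) ℚ),
    mul_ne_zero (mul_ne_zero (mul_ne_zero hg0 hg1) hg2) hg3, fun c t ht hht hc'' => ?_⟩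
  set cQ : Fin r → ℚ := fun j => (c j : ℚ) with hcQ
  set cT : Fin r → ℚ := fun j => (c j : ℚ) * ∏ i, t i ^ v j i with hcT
  rw [map_mul] at hc''
  have hc' := left_ne_zero_of_mul hc''
  have hcne : ∀ j, c j ≠ 0 := by
    have h5 := right_ne_zero_of_mul hc''
    rw [map_prod] at h5
    intro j
    have h6 := Finset.prod_ne_zero_iff.1 h5 j (Finset.mem_univ j)
    rw [eval_X] at h6
    intro h7
    apply h6
    simp only [hcT]
    rw [h7, Int.cast_zero, zero_mul]
  have hc : aeval (fun j => ((cT j : ℚ) : ℂ)) (g0 * g1 * g2) ≠ 0 := by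
    have h0 : aeval (fun j => ((cT j : ℚ) : ℂ)) (g0 * g1 * g2) =
        ((eval cT (g0 * g1 * g2) : ℚ) : ℂ) := by
      have h5 := aeval_algebraMap_apply ℂ cT (g0 * g1 * g2)
      exact h5
    rw [h0]
    exact_mod_cast hc'
  rw [map_mul, map_mul] at hc
  have hb0 := hgb _ (left_ne_zero_of_mul (left_ne_zero_of_mul hc))
  have hb := h1 _ (right_ne_zero_of_mul (left_ne_zero_of_mul hc))
  have hnd := h2 _ (right_ne_zero_of_mul hc)
  set m : Fin (r + h.support.card) → Fin N → ℕ := Fin.append v (weZ h) with hm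
  set cc : Fin (r + h.support.card) → ℤ := Fin.append c (wcZ h) with hcc
  have hcast : (fun j => ((cc j : ℤ) : ℚ)) = Fin.append cQ (fun l => ((wcZ h l : ℤ) : ℚ)) :=
    append_map (fun q : ℤ => (q : ℚ)) c (wcZ h)
  have hnq : NonD m (fun j => algebraMap ℚ ℂ ((cc j : ℤ) : ℚ)) := by
    have h3 := append_map (fun q : ℚ => (q : ℂ)) cQ (fun l => ((wcZ h l : ℤ) : ℚ))
    have h4 : (fun j => algebraMap ℚ ℂ ((cc j : ℤ) : ℚ)) =
        fun j => (((Fin.append cQ (fun l => ((wcZ h l : ℤ) : ℚ)) j : ℚ)) : ℂ) := by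
      funext j
      rw [← hcast]
      rfl
    rw [h4, h3]
    refine nonD_scale (fun i => ((t i : ℚ) : ℂ)) (fun i => by exact_mod_cast ht i) ?_
    have h5 : (fun j => Fin.append (fun j => ((cQ j : ℚ) : ℂ))
        (fun l => ((((wcZ h l : ℤ) : ℚ)) : ℂ)) j * ∏ i, ((t i : ℚ) : ℂ) ^ m j i) =
        Fin.append (fun j => ((cT j : ℚ) : ℂ)) (fun l => ((((wcZ h l : ℤ) : ℚ)) : ℂ)) := by
      funext j
      refine Fin.addCases (fun j => ?_) (fun l => ?_) j
      · rw [Fin.append_left, Fin.append_left, hm]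
        simp only [Fin.append_left, hcQ, hcT]
        push_cast
        rfl
      · rw [Fin.append_right, Fin.append_right, hm]
        simp only [Fin.append_right]
        have h6 := hht _ (h.support.equivFin.symm l).2
        have h7 : ∏ i, ((t i : ℚ) : ℂ) ^ weZ h l i = 1 := by
          unfold weZ
          exact_mod_cast h6
        rw [h7, mul_one]
    rw [h5]
    exact hnd
  have hid : ∀ u : Fin N → ℕ, Pool.Agent.W425.PN.Idn m (fun j => ((cc j : ℤ) : ℚ))
      (Finset.univ.filter fun j => ∑ i, u i * m j i = gord m u) := fun u =>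
    idn_of m (fun j => ((cc j : ℤ) : ℚ)) hnq u
  have hccne : ∀ j, cc j ≠ 0 := by
    intro j
    refine Fin.addCases (fun j => ?_) (fun l => ?_) j
    · rw [hcc, Fin.append_left]; exact hcne j
    · rw [hcc, Fin.append_right]
      exact mem_support_iff.1 (h.support.equivFin.symm l).2
  have hminj : Function.Injective m := by
    intro j j'
    refine Fin.addCases (fun j => ?_) (fun l => ?_) j <;>
      refine Fin.addCases (fun j' => ?_) (fun l' => ?_) j'
    · rw [hm, Fin.append_left, Fin.append_left]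
      intro h3
      rw [hv h3]
    · rw [hm, Fin.append_left, Fin.append_right]
      intro h3
      exact absurd (fun x => (congrFun h3 x).symm)
        (hvh _ (h.support.equivFin.symm l').2 j)
    · rw [hm, Fin.append_left, Fin.append_right]
      intro h3
      exact absurd (fun x => congrFun h3 x) (hvh _ (h.support.equivFin.symm l).2 j')
    · rw [hm, Fin.append_right, Fin.append_right]
      intro h3
      have h4 : (h.support.equivFin.symm l) = (h.support.equivFin.symm l') :=
        Subtype.ext (Finsupp.ext fun x => congrFun h3 x)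
      rw [h.support.equivFin.symm.injective h4]
  set m' : Fin (r + (kept v hQ).card) → Fin N → ℕ := Fin.append v (ke v hQ) with hm'
  have hminj' : Function.Injective m' := by
    intro j j'
    refine Fin.addCases (fun j => ?_) (fun l => ?_) j <;>
      refine Fin.addCases (fun j' => ?_) (fun l' => ?_) j'
    · rw [hm', Fin.append_left, Fin.append_left]
      intro h3
      rw [hv h3]
    · rw [hm', Fin.append_left, Fin.append_right]
      intro h3
      obtain ⟨w, hw, hwe, -⟩ := ke_mem v hQ l'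
      exact absurd (fun x => by rw [← hwe, ← congrFun h3 x]) (hvh w (hsub w hw) j)
    · rw [hm', Fin.append_left, Fin.append_right]
      intro h3
      obtain ⟨w, hw, hwe, -⟩ := ke_mem v hQ l
      exact absurd (fun x => by rw [← hwe, congrFun h3 x]) (hvh w (hsub w hw) j')
    · rw [hm', Fin.append_right, Fin.append_right]
      intro h3
      have h4 : ((kept v hQ).equivFin.symm l) = ((kept v hQ).equivFin.symm l') :=
        Subtype.ext (Finsupp.ext fun x => congrFun h3 x)
      rw [(kept v hQ).equivFin.symm.injective h4]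
  have hma : ∀ j', ∃ j, m j = m' j' := by
    intro j'
    refine Fin.addCases (fun j => ?_) (fun l => ?_) j'
    · exact ⟨Fin.castAdd _ j, by rw [hm, hm', Fin.append_left, Fin.append_left]⟩
    · obtain ⟨w, hw, hwe, -⟩ := ke_mem v hQ l
      refine ⟨Fin.natAdd r (h.support.equivFin ⟨w, hsub w hw⟩), ?_⟩
      rw [hm, hm', Fin.append_right, Fin.append_right]
      funext i
      rw [hwe]
      unfold weZ
      rw [Equiv.symm_apply_apply]
  have hmb : ∀ j, InC m' Finset.univ (m j) := by
    intro j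
    refine Fin.addCases (fun j => ?_) (fun l => ?_) j
    · rw [hm, Fin.append_left]
      exact inC_append v _ _ (inC_self v _ j (Finset.mem_univ _))
    · rw [hm, Fin.append_right]
      by_cases hC : InC v Finset.univ (weZ h l)
      · exact inC_append v _ _ hC
      · have hmem : (h.support.equivFin.symm l).1 ∈ kept v hQ :=
          (mem_kept v hQ _).2 ⟨hsup _ (h.support.equivFin.symm l).2, hC⟩
        have h3 : m' (Fin.natAdd r ((kept v hQ).equivFin ⟨_, hmem⟩)) = weZ h l := by
          rw [hm', Fin.append_right]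
          funext i
          unfold ke
          rw [Equiv.symm_apply_apply]
          rfl
        rw [← h3]
        exact inC_self _ _ _ (Finset.mem_univ _)
  have hf : spa v c + h = ∑ j, MvPolynomial.C (cc j) * ∏ i, MvPolynomial.X i ^ m j i := by
    rw [Fin.sum_univ_add]
    simp only [hm, hcc, Fin.append_left, Fin.append_right]
    rw [← h_eqZ h]
    rfl
  have hk : 0 < r + h.support.card := by omega
  intro p hpp T₀ μ hμ hP b hb0' hbf
  have hmap : MvPolynomial.map (Int.castRingHom ℂ) (spa v c + h) =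
      spa v (fun j => ((cQ j : ℚ) : ℂ)) + MvPolynomial.map (algebraMap ℚ ℂ) hQ := by
    rw [map_add, hhQ, MvPolynomial.map_map]
    congr 1
    unfold spa
    simp [hcQ]
  rw [hmap] at hbf
  have hbfT : IsBFunction (spa v (fun j => ((cT j : ℚ) : ℂ)) +
      MvPolynomial.map (algebraMap ℚ ℂ) hQ) b := by
    have h5 := isBFunction_iso (scl (fun i => ((t i : ℚ) : ℂ)) (fun i => by exact_mod_cast ht i))
      hbf
    have h6 : scl (fun i => ((t i : ℚ) : ℂ)) (fun i => by exact_mod_cast ht i)
        (spa v (fun j => ((cQ j : ℚ) : ℂ)) + MvPolynomial.map (algebraMap ℚ ℂ) hQ) =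
        spa v (fun j => ((cT j : ℚ) : ℂ)) + MvPolynomial.map (algebraMap ℚ ℂ) hQ := by
      rw [map_add, scl_spa, scl_fix]
      · congr 2
        funext j
        simp only [hcQ, hcT]
        push_cast
        rfl
      · intro w hw
        have h7 := hht w (hsub w (MvPolynomial.support_map_subset _ _ hw))
        exact_mod_cast h7
    rwa [h6] at h5
  obtain ⟨h3, h4⟩ := hb b hbfT
  refine ⟨h3, h4, ?_⟩
  obtain ⟨α, hα⟩ := ratEP hk m cc hccne hid _ hf hpp T₀ μ hμ hP
  refine ⟨α, hα, fun hL => ?_⟩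
  have hcast2 : ((-Real.log ‖T₀‖ / Real.log p : ℝ) : ℂ) = (α : ℂ) := by
    rw [hα]
    push_cast
    rfl
  have hnHP : ¬ HP v hQ α (b.rootMultiplicity (α : ℂ)) := by
    intro hHP
    have h5 := hb0 b ((bfun_iff _ _).1 hbfT) α _ hHP
    exact Polynomial.pow_rootMultiplicity_not_dvd hb0' (α : ℂ) h5
  obtain ⟨θ, pol, hpol0, hrel, hmult⟩ := rel_of_not_HP v hv hv0 hQ hhq α _ hnHP
  have h5 := ndEP2 hk m hminj m' hminj' hma hmb cc hccne hid _ hf hpp T₀ μ hμ hP pol hpol0 θ hrel
    (by
      have h6 : Real.log ‖T₀‖ / Real.log p = ((-α : ℚ) : ℝ) := by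
        push_cast
        rw [← hα]
        ring
      rw [h6]
      exact hypS_kept (kept_map v h) hL)
  rw [hcast2] at h5 ⊢
  exact h5.trans hmult

end Pool.Agent.Y229.PA
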