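import Pool.Agent.Y229.PA.Cmp
import Pool.Agent.Y229.PA.GenT

/-!
# Compositions with generic coefficients and a fixed part: Denef's question for every prime
-/

set_option autoImplicit false

namespace Pool.Agent.Y229.PA

open MvPolynomial Pool.Agent.W206.CU Pool.Agent.TH216.MF
open Pool.Agent.W425.ND (spa)
open Pool.Agent.W425.MM (NonB)
open Pool.Agent.W425.SV (NP)
open Pool.Agent.W426.SM (gord IsRay face)
open Pool.Agent.H628R4.TP (IsBFunction)
open Pool.Agent.Y229.RE (stab)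
open Pool.Agent.TH216.EP (ConcF LevOK)

variable {n κ r s : ℕ}

/-- From `ConcF` to the condition on the levels (compare `TH216.EP.genFE`). -/
theorem lev_of_conc {R N : ℕ} (hR : 0 < R) (v : Fin R → Fin N → ℕ) (hv0 : ∀ j, v j ≠ 0)
    (h : MvPolynomial (Fin N) ℤ) (hh : ∀ w ∈ h.support, NP v w)
    {c : Fin R → ℤ} (hc : ConcF v h c) (p : ℕ) (hpp : p.Prime) (T₀ : ℂ) (μ : ℕ) (hμ : 0 < μ)
    (hP : IsPoleOfOrder (poincare p (spa v c + h)) T₀ μ) (b : Polynomial ℂ) (hb0 : b ≠ 0)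
    (hb : IsBFunction (toC (spa v c + h)) b) :
    ∃ σ : ℚ, -Real.log ‖T₀‖ / Real.log p = -(σ : ℝ) ∧
      (LevOK v h σ → b.eval ((-Real.log ‖T₀‖ / Real.log p : ℝ) : ℂ) = 0) ∧
      (HypS (Fin.append v (ke v h)) (σ : ℝ) →
        μ ≤ b.rootMultiplicity ((-Real.log ‖T₀‖ / Real.log p : ℝ) : ℂ)) := by
  obtain ⟨h3, h4, α, hα, h5⟩ := hc p hpp T₀ μ hμ hP b hb0 hb
  have hcast : ((-Real.log ‖T₀‖ / Real.log p : ℝ) : ℂ) = (α : ℂ) := by
    rw [hα]
    push_cast
    rfl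
  have hroot : HypS (Fin.append v (ke v h)) ((-α : ℚ) : ℝ) →
      b.eval ((-Real.log ‖T₀‖ / Real.log p : ℝ) : ℂ) = 0 := by
    intro h6
    have h7 := h5 h6
    have h8 : 0 < b.rootMultiplicity ((-Real.log ‖T₀‖ / Real.log p : ℝ) : ℂ) := by omega
    exact (Polynomial.rootMultiplicity_pos hb0).1 h8
  refine ⟨-α, by rw [hα]; push_cast; ring, fun hL => ?_, h5⟩
  by_cases hray : ∃ a : Fin N → ℕ, IsRay v a ∧ 0 < gord v a ∧
      ((∑ i, a i : ℕ) : ℚ) / gord v a = -α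
  · rcases hL hray with h6 | ⟨a', hga', hn', he⟩ | h6
    · have : α = -1 := by linarith
      rw [hcast, this]
      push_cast
      exact h3
    · have h7 : α = -(((∑ i, a' i : ℕ) : ℚ) / gord v a') := by rw [he, neg_neg]
      rw [hcast, h7]
      have := h4 a' hga' hn'
      push_cast at this ⊢
      exact this
    · exact hroot h6
  · apply hroot
    refine hypS_of_locS hR v h hh (-α) ?_
    intro j1
    obtain ⟨i, hi⟩ : ∃ i, v j1 i ≠ 0 := by
      by_contra hcon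
      push Not at hcon
      exact hv0 j1 (funext hcon)
    exact ⟨i, fun a ha hg' _ hσ => absurd ⟨a, ha, hg', hσ⟩ hray⟩

/-- The conclusion for the polynomial `f`, with the levels of the exponents `v` and of `h` shifted
by `κ`. -/
def Levels {R N : ℕ} (v : Fin R → Fin N → ℕ) (h : MvPolynomial (Fin N) ℤ) (κ : ℕ)
    {n : ℕ} (f : MvPolynomial (Fin n) ℤ) : Prop :=
  ∀ p : ℕ, p.Prime → ∀ (T₀ : ℂ) (μ : ℕ), 0 < μ → IsPoleOfOrder (poincare p f) T₀ μ →
    ∀ b : Polynomial ℂ, b ≠ 0 → IsBFunction (toC f) b →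
    ∃ σ : ℚ, -Real.log ‖T₀‖ / Real.log p = -(σ : ℝ) ∧
      (LevOK v h (σ + κ) → b.eval ((-Real.log ‖T₀‖ / Real.log p : ℝ) : ℂ) = 0) ∧
      (HypS (Fin.append v (ke v h)) ((σ + κ : ℚ) : ℝ) →
        μ ≤ b.rootMultiplicity ((-Real.log ‖T₀‖ / Real.log p : ℝ) : ℂ))

/-- **From `ConcF` for `ψ (f + ∑ y_i z_i)` to `f`.** -/
theorem levels_down {R N : ℕ} (hR : 0 < R) (v : Fin R → Fin N → ℕ) (hv0 : ∀ j, v j ≠ 0)
    (h : MvPolynomial (Fin N) ℤ) (hh : ∀ w ∈ h.support, NP v w)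
    {c : Fin R → ℤ} (hc : ConcF v h c) {f : MvPolynomial (Fin n) ℤ} (hκ : 0 < κ)
    (hdeg : (toC f).totalDegree ≠ 0)
    (ψ : MvPolynomial (Fin n ⊕ (Fin κ ⊕ Fin κ)) ℤ ≃ₐ[ℤ] MvPolynomial (Fin N) ℤ)
    (hψ : ψ (stabS f κ) = spa v c + h) : Levels v h κ f := by
  intro p hpp T₀ μ hμ hP β hβ0 hβ
  have hfact : Fact p.Prime := ⟨hpp⟩
  obtain ⟨B, μ₁, hB0, hB, hQ, h1, h2⟩ := down hdeg hκ ψ hψ p hμ hP hβ0 hβ
  have hT0 := pole_ne_zero hμ hP
  have hlog : -Real.log ‖T₀ * (p : ℂ) ^ κ‖ / Real.log p = -Real.log ‖T₀‖ / Real.log p - κ :=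
    log_down p hT0 κ
  have key : ∀ μ' : ℕ, 0 < μ' →
      IsPoleOfOrder (poincare p (spa v c + h)) (T₀ * (p : ℂ) ^ κ) μ' →
      ∃ σ : ℚ, -Real.log ‖T₀‖ / Real.log p = -(σ : ℝ) ∧
        (LevOK v h (σ + κ) →
          B.eval ((-Real.log ‖T₀ * (p : ℂ) ^ κ‖ / Real.log p : ℝ) : ℂ) = 0) ∧
        (HypS (Fin.append v (ke v h)) ((σ + κ : ℚ) : ℝ) →
          μ' ≤ B.rootMultiplicity ((-Real.log ‖T₀ * (p : ℂ) ^ κ‖ / Real.log p : ℝ) : ℂ)) := by
    intro μ' hμ' hQ'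
    obtain ⟨σ, h5, h6, h7⟩ := lev_of_conc hR v hv0 h hh hc p hpp _ μ' hμ' hQ' B hB0 hB
    refine ⟨σ - κ, ?_, fun hL => ?_, fun hS => ?_⟩
    · rw [hlog] at h5
      push_cast
      linarith
    · apply h6
      rwa [sub_add_cancel] at hL
    · apply h7
      rwa [sub_add_cancel] at hS
  have hfol : Fol f (Fin N) κ (spa v c + h) := by
    have h3 := (fol_chain f).iso _ _ ψ κ _ (fol_stab f κ)
    rwa [hψ] at h3
  have hrat : ∃ σ : ℚ, -Real.log ‖T₀‖ / Real.log p = -(σ : ℝ) := by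
    rcases pole_down hfol hκ p hμ hP with ⟨-, -, hQ'⟩ | ⟨-, -, hQ'⟩ | ⟨hTp, -⟩
    · obtain ⟨σ, h5, -, -⟩ := key μ hμ hQ'
      exact ⟨σ, h5⟩
    · obtain ⟨σ, h5, -, -⟩ := key (μ + 1) (by omega) hQ'
      exact ⟨σ, h5⟩
    · refine ⟨1, ?_⟩
      have hp1 : (1 : ℝ) < p := by exact_mod_cast hpp.one_lt
      have hlp : 0 < Real.log p := Real.log_pos hp1
      rw [hTp, Complex.norm_natCast, neg_div, div_self hlp.ne']
      push_cast
      rfl
  obtain ⟨σ, hσ⟩ := hrat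
  refine ⟨σ, hσ, fun hL => ?_, fun hS => ?_⟩
  · apply h2
    intro hμ₁
    obtain ⟨σ₁, h5, h6, -⟩ := key μ₁ hμ₁ hQ
    have h8 : σ₁ = σ := by
      have h9 : ((σ₁ : ℚ) : ℝ) = σ := by linarith
      exact_mod_cast h9
    rw [h8] at h6
    exact h6 hL
  · apply h1
    intro hμ₁
    obtain ⟨σ₁, h5, -, h7⟩ := key μ₁ hμ₁ hQ
    have h8 : σ₁ = σ := by
      have h9 : ((σ₁ : ℚ) : ℝ) = σ := by linarith
      exact_mod_cast h9
    rw [h8] at h7
    exact h7 hS

/-! ### The fixed part -/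

/-- the fixed part `h₀(x, z) - ∑ y_i h_i(x)` -/
noncomputable def fixS (h₀ : MvPolynomial (Fin n ⊕ Fin κ) ℤ) (h : Fin κ → MvPolynomial (Fin n) ℤ) :
    MvPolynomial (Fin n ⊕ (Fin κ ⊕ Fin κ)) ℤ :=
  rename embS h₀ - ∑ i, X (Sum.inr (Sum.inl i)) * rename Sum.inl (h i)

/-- the fixed part `h₀(x, z) - ∑ y_i h_i(x)`, with numbered variables -/
noncomputable def fixH (h₀ : MvPolynomial (Fin n ⊕ Fin κ) ℤ) (h : Fin κ → MvPolynomial (Fin n) ℤ) :
    MvPolynomial (Fin (n + (κ + κ))) ℤ :=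
  rename (spl n κ κ).symm (fixS h₀ h)

/-- the composition `Φ_a(x, p_b(x))` with fixed parts -/
noncomputable def compH (m : Fin r → Fin n ⊕ Fin κ → ℕ) (w : Fin s → Fin n → ℕ)
    (ι : Fin s → Fin κ) (h₀ : MvPolynomial (Fin n ⊕ Fin κ) ℤ)
    (h : Fin κ → MvPolynomial (Fin n) ℤ) (a : Fin r → ℤ) (b : Fin s → ℤ) :
    MvPolynomial (Fin n) ℤ :=
  aeval (Sum.elim X fun i => innerC w ι b i + h i) (outerC m a + h₀)

theorem graph_fix (m : Fin r → Fin n ⊕ Fin κ → ℕ) (w : Fin s → Fin n → ℕ) (ι : Fin s → Fin κ)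
    (h₀ : MvPolynomial (Fin n ⊕ Fin κ) ℤ) (h : Fin κ → MvPolynomial (Fin n) ℤ)
    (a : Fin r → ℤ) (b : Fin s → ℤ) :
    graphS (outerC m a + h₀) (fun i => innerC w ι b i + h i) =
      graphS (outerC m a) (innerC w ι b) + fixS h₀ h := by
  unfold graphS fixS
  rw [map_add, add_sub_assoc', sub_eq_add_neg, ← Finset.sum_neg_distrib]
  have e : ∀ i : Fin κ, (X (Sum.inr (Sum.inl i)) *
      (X (Sum.inr (Sum.inr i)) - rename Sum.inl (innerC w ι b i + h i)) :
        MvPolynomial (Fin n ⊕ (Fin κ ⊕ Fin κ)) ℤ) =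
      X (Sum.inr (Sum.inl i)) * (X (Sum.inr (Sum.inr i)) - rename Sum.inl (innerC w ι b i)) +
        -(X (Sum.inr (Sum.inl i)) * rename Sum.inl (h i)) := by
    intro i
    rw [map_add]
    ring
  rw [Finset.sum_congr rfl fun i _ => e i, Finset.sum_add_distrib]
  ring

/-- the isomorphism onto the sparse polynomial plus the fixed part -/
theorem comp_isoH (m : Fin r → Fin n ⊕ Fin κ → ℕ) (w : Fin s → Fin n → ℕ) (ι : Fin s → Fin κ)
    (h₀ : MvPolynomial (Fin n ⊕ Fin κ) ℤ) (h : Fin κ → MvPolynomial (Fin n) ℤ)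
    (a : Fin r → ℤ) (b : Fin s → ℤ) :
    ∃ ψ : MvPolynomial (Fin n ⊕ (Fin κ ⊕ Fin κ)) ℤ ≃ₐ[ℤ] MvPolynomial (Fin (n + (κ + κ))) ℤ,
      ψ (stabS (compH m w ι h₀ h a b) κ) =
        spa (expG m w ι) (coefG (κ := κ) a b) + fixH h₀ h := by
  obtain ⟨ψ, hψ⟩ := gkS (outerC m a + h₀) (fun i => innerC w ι b i + h i)
  refine ⟨ψ.trans (renameEquiv ℤ (spl n κ κ).symm), ?_⟩
  rw [AlgEquiv.trans_apply]
  show renameEquiv ℤ (spl n κ κ).symm (ψ (stabS (aeval (Sum.elim X fun i => innerC w ι b i + h i)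
    (outerC m a + h₀)) κ)) = _
  rw [hψ, graph_fix, map_add, graph_spa]
  rfl

/-! ### The normalisation by the torus -/

/-- the torus element -/
def tor (ty tz : Fin κ → ℚ) (I : Fin (n + (κ + κ))) : ℚ :=
  Sum.elim (fun _ : Fin n => 1) (Sum.elim ty tz) (spl n κ κ I)

/-- the parameters -/
noncomputable def par (m : Fin r → Fin n ⊕ Fin κ → ℕ) (ι : Fin s → Fin κ) (ty tz : Fin κ → ℚ)
    (J : Fin (r + (s + κ))) : MvPolynomial (Fin r ⊕ Fin s) ℚ :=
  Sum.elim (fun j => C (∏ i, tz i ^ m j (Sum.inr i)) * X (Sum.inl j))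
    (Sum.elim (fun l => -(C (ty (ι l)) * X (Sum.inr l))) fun i => C (ty i * tz i)) (spl r s κ J)

theorem tor_ne {ty tz : Fin κ → ℚ} (hy : ∀ i, ty i ≠ 0) (hz : ∀ i, tz i ≠ 0)
    (I : Fin (n + (κ + κ))) : tor ty tz I ≠ 0 := by
  unfold tor
  rcases spl n κ κ I with i | i | i
  · exact one_ne_zero
  · exact hy i
  · exact hz i

theorem prod_single (ty : Fin κ → ℚ) (i : Fin κ) :
    ∏ j, ty j ^ (Pi.single i 1 : Fin κ → ℕ) j = ty i := by
  rw [Finset.prod_eq_single i]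
  · rw [Pi.single_eq_same, pow_one]
  · intro j _ hj
    rw [Pi.single_eq_of_ne hj, pow_zero]
  · intro h
    exact absurd (Finset.mem_univ _) h

theorem prod_tor (m : Fin r → Fin n ⊕ Fin κ → ℕ) (w : Fin s → Fin n → ℕ) (ι : Fin s → Fin κ)
    (ty tz : Fin κ → ℚ) (J : Fin (r + (s + κ))) :
    ∏ I, tor ty tz I ^ expG m w ι J I =
      Sum.elim (fun j : Fin r => ∏ i, tz i ^ m j (Sum.inr i))
        (Sum.elim (fun l : Fin s => ty (ι l)) fun i => ty i * tz i) (spl r s κ J) := by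
  have h1 : ∏ I, tor ty tz I ^ expG m w ι J I =
      ∏ I : Fin n ⊕ (Fin κ ⊕ Fin κ),
        (Sum.elim (fun _ : Fin n => (1 : ℚ)) (Sum.elim ty tz) I) ^
          expo m w ι (spl r s κ J) I :=
    Fintype.prod_equiv (spl n κ κ) _ _ fun I => rfl
  rw [h1]
  rcases spl r s κ J with j | l | i
  · simp only [Fintype.prod_sum_type, expo, Sum.elim_inl, Sum.elim_inr, one_pow,
      Finset.prod_const_one, one_mul, Pi.zero_apply, pow_zero]
  · simp only [Fintype.prod_sum_type, expo, Sum.elim_inl, Sum.elim_inr, one_pow,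
      Finset.prod_const_one, one_mul, mul_one, Pi.zero_apply, pow_zero]
    exact prod_single ty (ι l)
  · simp only [Fintype.prod_sum_type, expo, Sum.elim_inl, Sum.elim_inr, one_pow,
      Finset.prod_const_one, one_mul]
    rw [prod_single, prod_single]

/-- evaluation of a substitution -/
theorem eval_aeval' {R S : Type} (y : S → ℚ) (q : R → MvPolynomial S ℚ) (g : MvPolynomial R ℚ) :
    eval y (aeval q g) = eval (fun J => eval y (q J)) g := by
  induction g using MvPolynomial.induction_on with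
  | C c => rw [algHom_C, algebraMap_eq, eval_C, eval_C]
  | add g h hg hh => rw [map_add, map_add, map_add, hg, hh]
  | mul_X g J hg => rw [map_mul, map_mul, map_mul, aeval_X, eval_X, hg]

/-- the specialisation of the parameters -/
theorem eval_par (m : Fin r → Fin n ⊕ Fin κ → ℕ) (w : Fin s → Fin n → ℕ) (ι : Fin s → Fin κ)
    (ty tz : Fin κ → ℚ) (a : Fin r → ℤ) (b : Fin s → ℤ) (g : MvPolynomial (Fin (r + (s + κ))) ℚ) :
    eval (fun J => ((Sum.elim a b J : ℤ) : ℚ)) (aeval (par m ι ty tz) g) =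
      eval (fun J => (coefG (κ := κ) a b J : ℚ) * ∏ I, tor ty tz I ^ expG m w ι J I) g := by
  have h1 : (fun J : Fin (r + (s + κ)) =>
      (coefG (κ := κ) a b J : ℚ) * ∏ I, tor ty tz I ^ expG m w ι J I) =
      fun J => eval (fun J => ((Sum.elim a b J : ℤ) : ℚ)) (par m ι ty tz J) := by
    funext J
    rw [prod_tor]
    unfold coefG par
    rcases spl r s κ J with j | l | i
    · simp only [Sum.elim_inl, map_mul, eval_C, eval_X]
      ring
    · simp only [Sum.elim_inr, Sum.elim_inl, map_neg, map_mul, eval_C, eval_X]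
      push_cast
      ring
    · simp only [Sum.elim_inr, eval_C]
      push_cast
      ring
  rw [h1, eval_aeval']

/-- the normalisation of the coefficients of the `y_i z_i` -/
theorem exists_tor (m : Fin r → Fin n ⊕ Fin κ → ℕ) (ι : Fin s → Fin κ) (cy : Fin κ → Prop)
    {g : MvPolynomial (Fin (r + (s + κ))) ℚ} (hg : g ≠ 0) :
    ∃ ty tz : Fin κ → ℚ, (∀ i, ty i ≠ 0) ∧ (∀ i, tz i ≠ 0) ∧ (∀ i, cy i → tz i = 1) ∧
      (∀ i, ¬ cy i → ty i = 1) ∧ aeval (par m ι ty tz) g ≠ 0 := by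
  classical
  set P : MvPolynomial (Fin (r + (s + κ))) ℚ :=
    g * ∏ i : Fin κ, X ((spl r s κ).symm (Sum.inr (Sum.inr i))) with hP
  have hP0 : P ≠ 0 := mul_ne_zero hg (Finset.prod_ne_zero_iff.2 fun i _ => X_ne_zero _)
  obtain ⟨x, hx⟩ : ∃ x : Fin (r + (s + κ)) → ℚ, eval x P ≠ 0 := by
    by_contra hcon
    push Not at hcon
    exact hP0 (MvPolynomial.funext fun x => by rw [hcon x, map_zero])
  rw [hP, map_mul, map_prod] at hx
  have hxg := left_ne_zero_of_mul hx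
  obtain ⟨τ, hτ⟩ : ∃ τ : Fin κ → ℚ, τ = fun i => x ((spl r s κ).symm (Sum.inr (Sum.inr i))) :=
    ⟨_, rfl⟩
  have hxt : ∀ i : Fin κ, τ i ≠ 0 := by
    intro i
    have := Finset.prod_ne_zero_iff.1 (right_ne_zero_of_mul hx) i (Finset.mem_univ _)
    rw [eval_X] at this
    rw [hτ]
    exact this
  obtain ⟨ty, hty⟩ : ∃ ty : Fin κ → ℚ, ty = fun i => if cy i then τ i else 1 := ⟨_, rfl⟩
  obtain ⟨tz, htz⟩ : ∃ tz : Fin κ → ℚ, tz = fun i => if cy i then 1 else τ i := ⟨_, rfl⟩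
  have hy0 : ∀ i, ty i ≠ 0 := by
    intro i
    rw [hty]
    show (if cy i then τ i else 1) ≠ 0
    split_ifs
    · exact hxt i
    · exact one_ne_zero
  have hz0 : ∀ i, tz i ≠ 0 := by
    intro i
    rw [htz]
    show (if cy i then 1 else τ i) ≠ 0
    split_ifs
    · exact one_ne_zero
    · exact hxt i
  have hyz : ∀ i, ty i * tz i = τ i := by
    intro i
    rw [hty, htz]
    show (if cy i then τ i else 1) * (if cy i then 1 else τ i) = τ i
    split_ifs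
    · rw [mul_one]
    · rw [one_mul]
  refine ⟨ty, tz, hy0, hz0, fun i hi => ?_, fun i hi => ?_, ?_⟩
  · rw [htz]
    exact if_pos hi
  · rw [hty]
    exact if_neg hi
  intro h0
  apply hxg
  obtain ⟨y, hy⟩ : ∃ y : Fin r ⊕ Fin s → ℚ, y =
    Sum.elim (fun j => x ((spl r s κ).symm (Sum.inl j)) / ∏ i, tz i ^ m j (Sum.inr i))
    (fun l => -(x ((spl r s κ).symm (Sum.inr (Sum.inl l))) / ty (ι l))) := ⟨_, rfl⟩
  have h1 : eval y (aeval (par m ι ty tz) g) = eval x g := by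
    rw [eval_aeval']
    congr 2
    funext J
    unfold par
    obtain ⟨J', rfl⟩ := (spl r s κ).symm.surjective J
    rw [Equiv.apply_symm_apply]
    rcases J' with j | l | i
    · simp only [Sum.elim_inl, map_mul, eval_C, eval_X, hy]
      exact mul_div_cancel₀ _ (Finset.prod_ne_zero_iff.2 fun i _ => pow_ne_zero _ (hz0 i))
    · simp only [Sum.elim_inr, Sum.elim_inl, map_neg, map_mul, eval_C, eval_X, hy]
      rw [mul_neg, neg_neg]
      exact mul_div_cancel₀ _ (hy0 (ι l))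
    · simp only [Sum.elim_inr, eval_C]
      rw [hyz, hτ]
  rw [← h1, h0, map_zero]

/-! ### The fixed part is invariant -/

/-- the torus element fixes the polynomial -/
def Inv {R : Type} [Fintype R] (t : R → ℚ) (P : MvPolynomial R ℤ) : Prop :=
  ∀ w ∈ P.support, ∏ i, t i ^ w i = 1

theorem inv_sub {R : Type} [Fintype R] {t : R → ℚ} {P Q : MvPolynomial R ℤ} (hP : Inv t P)
    (hQ : Inv t Q) : Inv t (P - Q) := by
  classical
  intro w hw
  rcases Finset.mem_union.1 (support_sub R P Q hw) with h | h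
  · exact hP w h
  · exact hQ w h

theorem inv_sum {R A : Type} [Fintype R] {t : R → ℚ} (S : Finset A) {P : A → MvPolynomial R ℤ}
    (hP : ∀ i, Inv t (P i)) : Inv t (∑ i ∈ S, P i) := by
  classical
  intro w hw
  obtain ⟨i, -, hi⟩ := Finset.mem_biUnion.1 (support_sum hw)
  exact hP i w hi

theorem prod_mapDomain {A R : Type} [Fintype A] [Fintype R] (e : A → R)
    (t : R → ℚ) (u : A →₀ ℕ) :
    ∏ i, t i ^ (u.mapDomain e) i = ∏ j, t (e j) ^ u j := by
  have h1 : ∏ i, t i ^ (u.mapDomain e) i = (u.mapDomain e).prod fun i k => t i ^ k :=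
    (Finsupp.prod_fintype _ _ fun _ => pow_zero _).symm
  rw [h1, Finsupp.prod_mapDomain_index (fun _ => pow_zero _) (fun _ _ _ => pow_add _ _ _),
    Finsupp.prod_fintype _ _ fun _ => pow_zero _]

theorem inv_rename {A R : Type} [Fintype A] [Fintype R] (e : A → R)
    {t : R → ℚ} {P : MvPolynomial A ℤ} (hP : Inv (fun j => t (e j)) P) : Inv t (rename e P) := by
  intro w hw
  obtain ⟨u, hu, hu'⟩ := coeff_rename_ne_zero e P w (mem_support_iff.1 hw)
  rw [← hu, prod_mapDomain e]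
  exact hP u (mem_support_iff.2 hu')

theorem inv_zero {R : Type} [Fintype R] (t : R → ℚ) : Inv t (0 : MvPolynomial R ℤ) := by
  intro w hw
  simp at hw

/-- the product with a fixed variable -/
theorem inv_X_mul {R : Type} [Fintype R] {t : R → ℚ} {P : MvPolynomial R ℤ} (i : R) (hi : t i = 1)
    (hP : Inv t P) : Inv t (X i * P) := by
  classical
  intro w hw
  rw [support_X_mul, Finset.mem_map] at hw
  obtain ⟨u, hu, rfl⟩ := hw
  have h1 : ∏ j, t j ^ (addLeftEmbedding (Finsupp.single i 1) u) j =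
      (∏ j, t j ^ (Finsupp.single i 1 : R →₀ ℕ) j) * ∏ j, t j ^ u j := by
    rw [← Finset.prod_mul_distrib]
    refine Finset.prod_congr rfl fun j _ => ?_
    rw [addLeftEmbedding_apply, Finsupp.add_apply, pow_add]
  rw [h1, hP u hu, mul_one]
  rw [Finset.prod_eq_single i]
  · rw [hi, one_pow]
  · intro j _ hj
    rw [Finsupp.single_eq_of_ne hj, pow_zero]
  · intro h
    exact absurd (Finset.mem_univ _) h

theorem inv_fixH (h₀ : MvPolynomial (Fin n ⊕ Fin κ) ℤ) (h : Fin κ → MvPolynomial (Fin n) ℤ)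
    (hS : ∀ i, h i = 0 ∨ ∀ u ∈ h₀.support, u (Sum.inr i) = 0) {ty tz : Fin κ → ℚ}
    (hz : ∀ i, h i = 0 → tz i = 1) (hy : ∀ i, h i ≠ 0 → ty i = 1) :
    Inv (tor ty tz) (fixH h₀ h) := by
  unfold fixH
  apply inv_rename
  have e : (fun j => tor ty tz ((spl n κ κ).symm j)) =
      Sum.elim (fun _ : Fin n => (1 : ℚ)) (Sum.elim ty tz) := by
    funext j
    unfold tor
    rw [Equiv.apply_symm_apply]
  rw [e]
  unfold fixS
  apply inv_sub
  · apply inv_rename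
    intro u hu
    refine Finset.prod_eq_one fun i _ => ?_
    rcases i with i | i
    · exact one_pow _
    · show tz i ^ u (Sum.inr i) = 1
      rcases hS i with h1 | h1
      · rw [hz i h1, one_pow]
      · rw [h1 u hu, pow_zero]
  · apply inv_sum
    intro i
    by_cases h1 : h i = 0
    · rw [h1, map_zero, mul_zero]
      exact inv_zero _
    · apply inv_X_mul
      · exact hy i h1
      · apply inv_rename
        intro u _
        exact Finset.prod_eq_one fun j _ => one_pow _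

/-- **Denef's question for compositions with generic coefficients, every prime, with orders.** -/
theorem cmpH (hr : 0 < r) (hκ : 0 < κ) (m : Fin r → Fin n ⊕ Fin κ → ℕ)
    (hm : Function.Injective m) (hm0 : ∀ j, m j ≠ 0) (w : Fin s → Fin n → ℕ) (ι : Fin s → Fin κ)
    (hw : Function.Injective fun l => (ι l, w l)) (h₀ : MvPolynomial (Fin n ⊕ Fin κ) ℤ)
    (h : Fin κ → MvPolynomial (Fin n) ℤ)
    (hS : ∀ i, h i = 0 ∨ ∀ u ∈ h₀.support, u (Sum.inr i) = 0)
    (hh : ∀ u ∈ (fixH h₀ h).support, NP (expG m w ι) u ∧ ∀ J, ¬ ∀ I, u I = expG m w ι J I) :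
    ∃ g : MvPolynomial (Fin r ⊕ Fin s) ℚ, g ≠ 0 ∧ ∀ (a : Fin r → ℤ) (b : Fin s → ℤ),
      eval (fun J => ((Sum.elim a b J : ℤ) : ℚ)) g ≠ 0 →
      (toC (compH m w ι h₀ h a b)).totalDegree ≠ 0 →
      Levels (expG m w ι) (fixH h₀ h) κ (compH m w ι h₀ h a b) := by
  obtain ⟨g, hg, hgc⟩ := gen_ordT (by omega) (expG m w ι) (expG_inj hm hw) (expG_ne hm0)
    (fixH h₀ h) (fun u hu => (hh u hu).1) (fun u hu => (hh u hu).2)
  obtain ⟨ty, tz, hy, hz, hty, htz, hgτ⟩ := exists_tor m ι (fun i => h i = 0) hg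
  refine ⟨aeval (par m ι ty tz) g, hgτ, fun a b hab hdeg => ?_⟩
  rw [eval_par m w ι ty tz a b] at hab
  have hconc := hgc _ (tor ty tz) (tor_ne hy hz)
    (inv_fixH h₀ h hS hty htz) hab
  obtain ⟨ψ, hψ⟩ := comp_isoH m w ι h₀ h a b
  exact levels_down (by omega) _ (expG_ne hm0) _ (fun u hu => (hh u hu).1) hconc hκ hdeg ψ hψ

end Pool.Agent.Y229.PA
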