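import Pool.Agent.Y229.PA.Dens

/-!
# Automorphisms over the integers: graphs, and the chain of moves
-/

set_option autoImplicit false

namespace Pool.Agent.Y229.PA

open MvPolynomial Pool.Agent.W206.CU

section graph
variable {ρ : Type} {κ : ℕ}

/-- the variables `x, z` -/
def embS : ρ ⊕ Fin κ → ρ ⊕ (Fin κ ⊕ Fin κ) := Sum.map id Sum.inr

/-- `Φ(x, z) + ∑ y_i (z_i - p_i(x))` -/
noncomputable def graphS (Φ : MvPolynomial (ρ ⊕ Fin κ) ℤ) (p : Fin κ → MvPolynomial ρ ℤ) :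
    MvPolynomial (ρ ⊕ (Fin κ ⊕ Fin κ)) ℤ :=
  rename embS Φ +
    ∑ i : Fin κ, X (Sum.inr (Sum.inl i)) * (X (Sum.inr (Sum.inr i)) - rename Sum.inl (p i))

/-- substitution -/
noncomputable def sub3 (a : ρ → MvPolynomial (ρ ⊕ (Fin κ ⊕ Fin κ)) ℤ)
    (b c : Fin κ → MvPolynomial (ρ ⊕ (Fin κ ⊕ Fin κ)) ℤ) :
    MvPolynomial (ρ ⊕ (Fin κ ⊕ Fin κ)) ℤ →ₐ[ℤ] MvPolynomial (ρ ⊕ (Fin κ ⊕ Fin κ)) ℤ :=
  aeval (Sum.elim a (Sum.elim b c))

theorem sub3_x (a : ρ → MvPolynomial (ρ ⊕ (Fin κ ⊕ Fin κ)) ℤ)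
    (b c : Fin κ → MvPolynomial (ρ ⊕ (Fin κ ⊕ Fin κ)) ℤ) (i : ρ) :
    sub3 a b c (X (Sum.inl i)) = a i := aeval_X _ _

theorem sub3_y (a : ρ → MvPolynomial (ρ ⊕ (Fin κ ⊕ Fin κ)) ℤ)
    (b c : Fin κ → MvPolynomial (ρ ⊕ (Fin κ ⊕ Fin κ)) ℤ) (i : Fin κ) :
    sub3 a b c (X (Sum.inr (Sum.inl i))) = b i := aeval_X _ _

theorem sub3_z (a : ρ → MvPolynomial (ρ ⊕ (Fin κ ⊕ Fin κ)) ℤ)
    (b c : Fin κ → MvPolynomial (ρ ⊕ (Fin κ ⊕ Fin κ)) ℤ) (i : Fin κ) :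
    sub3 a b c (X (Sum.inr (Sum.inr i))) = c i := aeval_X _ _

theorem ext3 {φ φ' : MvPolynomial (ρ ⊕ (Fin κ ⊕ Fin κ)) ℤ →ₐ[ℤ]
      MvPolynomial (ρ ⊕ (Fin κ ⊕ Fin κ)) ℤ}
    (h1 : ∀ i, φ (X (Sum.inl i)) = φ' (X (Sum.inl i)))
    (h2 : ∀ i, φ (X (Sum.inr (Sum.inl i))) = φ' (X (Sum.inr (Sum.inl i))))
    (h3 : ∀ i, φ (X (Sum.inr (Sum.inr i))) = φ' (X (Sum.inr (Sum.inr i)))) : φ = φ' := by
  apply MvPolynomial.algHom_ext
  rintro (i | i | i)
  · exact h1 i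
  · exact h2 i
  · exact h3 i

/-- an algebra homomorphism fixing some variables fixes the polynomials in these variables -/
theorem fix_rename {τ : Type} (e : τ → ρ ⊕ (Fin κ ⊕ Fin κ))
    (φ : MvPolynomial (ρ ⊕ (Fin κ ⊕ Fin κ)) ℤ →ₐ[ℤ] MvPolynomial (ρ ⊕ (Fin κ ⊕ Fin κ)) ℤ)
    (h : ∀ i, φ (X (e i)) = X (e i)) (g : MvPolynomial τ ℤ) :
    φ (rename e g) = rename e g := by
  have h1 : φ.comp (rename e) = rename e := by
    apply MvPolynomial.algHom_ext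
    intro i
    rw [AlgHom.comp_apply, rename_X, h]
  exact DFunLike.congr_fun h1 g

/-- expansion in the last variables -/
theorem expandS (G : MvPolynomial (ρ ⊕ Fin κ) ℤ) :
    ∃ r : Fin κ → MvPolynomial (ρ ⊕ Fin κ) ℤ,
      G = rename Sum.inl (aeval (Sum.elim (X : ρ → MvPolynomial ρ ℤ)
        (fun _ : Fin κ => 0)) G) + ∑ i, X (Sum.inr i) * r i := by
  classical
  induction G using MvPolynomial.induction_on with
  | C a =>
    refine ⟨fun _ => 0, ?_⟩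
    rw [algHom_C, algebraMap_eq, rename_C]
    simp
  | add p q hp hq =>
    obtain ⟨r, hr⟩ := hp
    obtain ⟨s, hs⟩ := hq
    refine ⟨fun i => r i + s i, ?_⟩
    have e : ∑ i, X (Sum.inr i) * (r i + s i) =
        ∑ i, X (Sum.inr i) * r i + ∑ i, X (Sum.inr i) * s i := by
      rw [← Finset.sum_add_distrib]
      exact Finset.sum_congr rfl fun i _ => mul_add _ _ _
    rw [e, map_add, map_add]
    conv_lhs => rw [hr, hs]
    ring
  | mul_X p j hp =>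
    obtain ⟨r, hr⟩ := hp
    rcases j with i | i
    · refine ⟨fun k => r k * X (Sum.inl i), ?_⟩
      rw [map_mul, map_mul, aeval_X, Sum.elim_inl, rename_X]
      have e : ∑ k, X (Sum.inr k) * (r k * X (Sum.inl i)) =
          (∑ k, X (Sum.inr k) * r k) * X (Sum.inl i) := by
        rw [Finset.sum_mul]
        exact Finset.sum_congr rfl fun k _ => (mul_assoc _ _ _).symm
      rw [e, ← add_mul, ← hr]
    · refine ⟨fun k => if k = i then p else 0, ?_⟩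
      rw [map_mul, map_mul, aeval_X, Sum.elim_inr, map_zero, mul_zero, zero_add]
      simp only [mul_ite, mul_zero, Finset.sum_ite_eq', Finset.mem_univ, if_true]
      rw [mul_comm]

/-- **The automorphism for compositions.** -/
theorem gkS (Φ : MvPolynomial (ρ ⊕ Fin κ) ℤ) (p : Fin κ → MvPolynomial ρ ℤ) :
    ∃ ψ : MvPolynomial (ρ ⊕ (Fin κ ⊕ Fin κ)) ℤ ≃ₐ[ℤ] MvPolynomial (ρ ⊕ (Fin κ ⊕ Fin κ)) ℤ,
      ψ (stabS (aeval (Sum.elim X p) Φ) κ) = graphS Φ p := by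
  obtain ⟨G, hG⟩ : ∃ G : MvPolynomial (ρ ⊕ Fin κ) ℤ,
      G = aeval (Sum.elim (fun i => X (Sum.inl i))
        (fun i => X (Sum.inr i) + rename Sum.inl (p i))) Φ := ⟨_, rfl⟩
  obtain ⟨r, hr⟩ := expandS G
  have hG0 : aeval (Sum.elim (X : ρ → MvPolynomial ρ ℤ) (fun _ : Fin κ => 0)) G =
      aeval (Sum.elim X p) Φ := by
    rw [hG]
    have h1 : ((aeval (Sum.elim (X : ρ → MvPolynomial ρ ℤ)
        (fun _ : Fin κ => 0))).comp (aeval (Sum.elim (fun i => X (Sum.inl i))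
        (fun i => X (Sum.inr i) + rename Sum.inl (p i)))) :
          MvPolynomial (ρ ⊕ Fin κ) ℤ →ₐ[ℤ] MvPolynomial ρ ℤ) =
        aeval (Sum.elim X p) := by
      apply MvPolynomial.algHom_ext
      rintro (i | i)
      · rw [AlgHom.comp_apply, aeval_X, aeval_X, Sum.elim_inl, Sum.elim_inl, aeval_X,
          Sum.elim_inl]
      · rw [AlgHom.comp_apply, aeval_X, aeval_X, Sum.elim_inr, Sum.elim_inr,
          map_add, aeval_X, Sum.elim_inr, zero_add, aeval_rename]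
        have h2 : (Sum.elim (X : ρ → MvPolynomial ρ ℤ) (fun _ : Fin κ => 0)) ∘
            Sum.inl = X := by
          funext k
          rfl
        rw [h2, aeval_X_left, AlgHom.id_apply]
    exact DFunLike.congr_fun h1 Φ
  rw [hG0] at hr
  obtain ⟨f, hf⟩ : ∃ f, f = aeval (Sum.elim (X : ρ → MvPolynomial ρ ℤ) p) Φ := ⟨_, rfl⟩
  rw [← hf] at hr ⊢
  -- the first automorphism
  obtain ⟨φ1, h1⟩ : ∃ φ : MvPolynomial (ρ ⊕ (Fin κ ⊕ Fin κ)) ℤ →ₐ[ℤ]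
      MvPolynomial (ρ ⊕ (Fin κ ⊕ Fin κ)) ℤ, φ = sub3 (fun i => X (Sum.inl i))
      (fun i => X (Sum.inr (Sum.inl i)) + rename embS (r i))
      (fun i => X (Sum.inr (Sum.inr i))) := ⟨_, rfl⟩
  obtain ⟨φ1', h1'⟩ : ∃ φ : MvPolynomial (ρ ⊕ (Fin κ ⊕ Fin κ)) ℤ →ₐ[ℤ]
      MvPolynomial (ρ ⊕ (Fin κ ⊕ Fin κ)) ℤ, φ = sub3 (fun i => X (Sum.inl i))
      (fun i => X (Sum.inr (Sum.inl i)) - rename embS (r i))
      (fun i => X (Sum.inr (Sum.inr i))) := ⟨_, rfl⟩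
  have e1 : ∀ g : MvPolynomial (ρ ⊕ Fin κ) ℤ, φ1 (rename embS g) = rename embS g := by
    intro g
    apply fix_rename
    rintro (i | i)
    · exact (congrArg (fun φ => φ (X (Sum.inl i))) h1).trans (sub3_x _ _ _ i)
    · exact (congrArg (fun φ => φ (X (Sum.inr (Sum.inr i)))) h1).trans (sub3_z _ _ _ i)
  have e1' : ∀ g : MvPolynomial (ρ ⊕ Fin κ) ℤ, φ1' (rename embS g) = rename embS g := by
    intro g
    apply fix_rename
    rintro (i | i)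
    · exact (congrArg (fun φ => φ (X (Sum.inl i))) h1').trans (sub3_x _ _ _ i)
    · exact (congrArg (fun φ => φ (X (Sum.inr (Sum.inr i)))) h1').trans (sub3_z _ _ _ i)
  have x1 : ∀ i, φ1 (X (Sum.inl i)) = X (Sum.inl i) := fun i => by rw [h1, sub3_x]
  have y1 : ∀ i, φ1 (X (Sum.inr (Sum.inl i))) =
      X (Sum.inr (Sum.inl i)) + rename embS (r i) := fun i => by rw [h1, sub3_y]
  have z1 : ∀ i, φ1 (X (Sum.inr (Sum.inr i))) = X (Sum.inr (Sum.inr i)) :=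
    fun i => by rw [h1, sub3_z]
  have x1' : ∀ i, φ1' (X (Sum.inl i)) = X (Sum.inl i) := fun i => by rw [h1', sub3_x]
  have y1' : ∀ i, φ1' (X (Sum.inr (Sum.inl i))) =
      X (Sum.inr (Sum.inl i)) - rename embS (r i) := fun i => by rw [h1', sub3_y]
  have z1' : ∀ i, φ1' (X (Sum.inr (Sum.inr i))) = X (Sum.inr (Sum.inr i)) :=
    fun i => by rw [h1', sub3_z]
  -- the second automorphism
  obtain ⟨φ2, h2⟩ : ∃ φ : MvPolynomial (ρ ⊕ (Fin κ ⊕ Fin κ)) ℤ →ₐ[ℤ]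
      MvPolynomial (ρ ⊕ (Fin κ ⊕ Fin κ)) ℤ, φ = sub3 (fun i => X (Sum.inl i))
      (fun i => X (Sum.inr (Sum.inl i)))
      (fun i => X (Sum.inr (Sum.inr i)) - rename Sum.inl (p i)) := ⟨_, rfl⟩
  obtain ⟨φ2', h2'⟩ : ∃ φ : MvPolynomial (ρ ⊕ (Fin κ ⊕ Fin κ)) ℤ →ₐ[ℤ]
      MvPolynomial (ρ ⊕ (Fin κ ⊕ Fin κ)) ℤ, φ = sub3 (fun i => X (Sum.inl i))
      (fun i => X (Sum.inr (Sum.inl i)))
      (fun i => X (Sum.inr (Sum.inr i)) + rename Sum.inl (p i)) := ⟨_, rfl⟩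
  have x2 : ∀ i, φ2 (X (Sum.inl i)) = X (Sum.inl i) := fun i => by rw [h2, sub3_x]
  have y2 : ∀ i, φ2 (X (Sum.inr (Sum.inl i))) = X (Sum.inr (Sum.inl i)) :=
    fun i => by rw [h2, sub3_y]
  have z2 : ∀ i, φ2 (X (Sum.inr (Sum.inr i))) =
      X (Sum.inr (Sum.inr i)) - rename Sum.inl (p i) := fun i => by rw [h2, sub3_z]
  have x2' : ∀ i, φ2' (X (Sum.inl i)) = X (Sum.inl i) := fun i => by rw [h2', sub3_x]
  have y2' : ∀ i, φ2' (X (Sum.inr (Sum.inl i))) = X (Sum.inr (Sum.inl i)) :=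
    fun i => by rw [h2', sub3_y]
  have z2' : ∀ i, φ2' (X (Sum.inr (Sum.inr i))) =
      X (Sum.inr (Sum.inr i)) + rename Sum.inl (p i) := fun i => by rw [h2', sub3_z]
  have e2 : ∀ g : MvPolynomial ρ ℤ, φ2 (rename Sum.inl g) = rename Sum.inl g :=
    fun g => fix_rename _ _ x2 g
  have e2' : ∀ g : MvPolynomial ρ ℤ, φ2' (rename Sum.inl g) = rename Sum.inl g :=
    fun g => fix_rename _ _ x2' g
  let ψ1 : MvPolynomial (ρ ⊕ (Fin κ ⊕ Fin κ)) ℤ ≃ₐ[ℤ] MvPolynomial (ρ ⊕ (Fin κ ⊕ Fin κ)) ℤ :=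
    AlgEquiv.ofAlgHom φ1 φ1' (by
      apply ext3
      · intro i
        rw [AlgHom.comp_apply, AlgHom.id_apply, x1', x1]
      · intro i
        rw [AlgHom.comp_apply, AlgHom.id_apply, y1', map_sub, y1, e1, add_sub_cancel_right]
      · intro i
        rw [AlgHom.comp_apply, AlgHom.id_apply, z1', z1]) (by
      apply ext3
      · intro i
        rw [AlgHom.comp_apply, AlgHom.id_apply, x1, x1']
      · intro i
        rw [AlgHom.comp_apply, AlgHom.id_apply, y1, map_add, y1', e1', sub_add_cancel]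
      · intro i
        rw [AlgHom.comp_apply, AlgHom.id_apply, z1, z1'])
  let ψ2 : MvPolynomial (ρ ⊕ (Fin κ ⊕ Fin κ)) ℤ ≃ₐ[ℤ] MvPolynomial (ρ ⊕ (Fin κ ⊕ Fin κ)) ℤ :=
    AlgEquiv.ofAlgHom φ2 φ2' (by
      apply ext3
      · intro i
        rw [AlgHom.comp_apply, AlgHom.id_apply, x2', x2]
      · intro i
        rw [AlgHom.comp_apply, AlgHom.id_apply, y2', y2]
      · intro i
        rw [AlgHom.comp_apply, AlgHom.id_apply, z2', map_add, z2, e2, sub_add_cancel]) (by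
      apply ext3
      · intro i
        rw [AlgHom.comp_apply, AlgHom.id_apply, x2, x2']
      · intro i
        rw [AlgHom.comp_apply, AlgHom.id_apply, y2, y2']
      · intro i
        rw [AlgHom.comp_apply, AlgHom.id_apply, z2, map_sub, z2', e2', add_sub_cancel_right])
  have hxe : ∀ g : MvPolynomial ρ ℤ,
      rename (embS (κ := κ)) (rename Sum.inl g) = rename Sum.inl g := by
    intro g
    rw [rename_rename]
    rfl
  have hφ2G : φ2 (rename embS G) = rename embS Φ := by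
    rw [hG]
    have h3 : (φ2.comp (rename embS)).comp (aeval (Sum.elim (fun i => X (Sum.inl i))
        (fun i => X (Sum.inr i) + rename Sum.inl (p i))) :
          MvPolynomial (ρ ⊕ Fin κ) ℤ →ₐ[ℤ] MvPolynomial (ρ ⊕ Fin κ) ℤ) = rename embS := by
      apply MvPolynomial.algHom_ext
      rintro (i | i)
      · rw [AlgHom.comp_apply, AlgHom.comp_apply, aeval_X, Sum.elim_inl, rename_X]
        exact x2 i
      · rw [AlgHom.comp_apply, AlgHom.comp_apply, aeval_X, Sum.elim_inr, map_add, map_add,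
          rename_X, hxe, e2]
        have h4 : φ2 (X (embS (Sum.inr i : ρ ⊕ Fin κ))) =
            X (Sum.inr (Sum.inr i)) - rename Sum.inl (p i) := z2 i
        rw [h4, sub_add_cancel]
        rfl
    exact DFunLike.congr_fun h3 Φ
  refine ⟨ψ1.trans ψ2, ?_⟩
  show φ2 (φ1 (rename Sum.inl f + ∑ i : Fin κ, X (Sum.inr (Sum.inl i)) *
    X (Sum.inr (Sum.inr i)))) = rename embS Φ + ∑ i : Fin κ, X (Sum.inr (Sum.inl i)) *
      (X (Sum.inr (Sum.inr i)) - rename Sum.inl (p i))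
  have h4 : φ1 (rename Sum.inl f + ∑ i : Fin κ, X (Sum.inr (Sum.inl i)) *
      X (Sum.inr (Sum.inr i))) = rename embS G + ∑ i : Fin κ, X (Sum.inr (Sum.inl i)) *
        X (Sum.inr (Sum.inr i)) := by
    rw [map_add, ← hxe f, e1, map_sum]
    conv_rhs => rw [hr]
    rw [map_add, map_sum, add_assoc, ← Finset.sum_add_distrib]
    congr 1
    refine Finset.sum_congr rfl fun i _ => ?_
    rw [map_mul, map_mul, y1, z1, rename_X]
    have h5 : embS (Sum.inr i : ρ ⊕ Fin κ) = Sum.inr (Sum.inr i) := rfl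
    rw [h5]
    ring
  rw [h4, map_add, hφ2G, map_sum]
  congr 1
  refine Finset.sum_congr rfl fun i _ => ?_
  rw [map_mul, y2, z2]

end graph

/-! ### The chain -/

section ext
variable {σ τ : Type}

/-- extension by two variables -/
noncomputable def extS (φ : MvPolynomial σ ℤ →ₐ[ℤ] MvPolynomial τ ℤ) :
    MvPolynomial (σ ⊕ Fin 2) ℤ →ₐ[ℤ] MvPolynomial (τ ⊕ Fin 2) ℤ :=
  aeval (Sum.elim (fun i => rename Sum.inl (φ (X i))) fun j => X (Sum.inr j))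

theorem extS_rename (φ : MvPolynomial σ ℤ →ₐ[ℤ] MvPolynomial τ ℤ) (g : MvPolynomial σ ℤ) :
    extS φ (rename Sum.inl g) = rename Sum.inl (φ g) := by
  have h : (extS φ).comp (rename Sum.inl) = (rename Sum.inl).comp φ := by
    apply MvPolynomial.algHom_ext
    intro i
    rw [AlgHom.comp_apply, AlgHom.comp_apply, rename_X]
    exact aeval_X _ _
  exact DFunLike.congr_fun h g

theorem extS_inr (φ : MvPolynomial σ ℤ →ₐ[ℤ] MvPolynomial τ ℤ) (j : Fin 2) :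
    extS φ (X (Sum.inr j)) = X (Sum.inr j) := aeval_X _ _

theorem extS_comp (φ : MvPolynomial σ ℤ →ₐ[ℤ] MvPolynomial τ ℤ)
    (φ' : MvPolynomial τ ℤ →ₐ[ℤ] MvPolynomial σ ℤ) (h : ∀ g, φ' (φ g) = g) :
    (extS φ').comp (extS φ) = AlgHom.id ℤ _ := by
  apply MvPolynomial.algHom_ext
  rintro (i | j)
  · rw [AlgHom.comp_apply, AlgHom.id_apply]
    have h1 : extS φ (X (Sum.inl i)) = rename Sum.inl (φ (X i)) := aeval_X _ _
    rw [h1, extS_rename, h, rename_X]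
  · rw [AlgHom.comp_apply, AlgHom.id_apply, extS_inr, extS_inr]

end ext

/-- `F` is `g + ∑ y_i z_i` up to an isomorphism of polynomial rings. -/
def IsStab {ρ₀ : Type} (g : MvPolynomial ρ₀ ℤ) (ρ : Type) [Finite ρ] (m : ℕ)
    (F : MvPolynomial ρ ℤ) : Prop :=
  ∃ φ : MvPolynomial (ρ₀ ⊕ (Fin m ⊕ Fin m)) ℤ ≃ₐ[ℤ] MvPolynomial ρ ℤ, φ (stabS g m) = F

theorem isStab_chain {ρ₀ : Type} (g : MvPolynomial ρ₀ ℤ) : Chain (IsStab g) where
  iso := by
    rintro ρ ρ' _ _ e m F ⟨φ, rfl⟩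
    exact ⟨φ.trans e, rfl⟩
  step := by
    rintro ρ _ m F ⟨φ, rfl⟩
    let e1 : MvPolynomial ((ρ₀ ⊕ (Fin m ⊕ Fin m)) ⊕ Fin 2) ℤ ≃ₐ[ℤ]
        MvPolynomial (ρ₀ ⊕ (Fin (m + 1) ⊕ Fin (m + 1))) ℤ :=
      renameEquiv ℤ (Equiv.ofBijective _ (up_bij ρ₀ m))
    let e2 : MvPolynomial ((ρ₀ ⊕ (Fin m ⊕ Fin m)) ⊕ Fin 2) ℤ ≃ₐ[ℤ]
        MvPolynomial (ρ ⊕ Fin 2) ℤ :=
      AlgEquiv.ofAlgHom (extS φ.toAlgHom) (extS φ.symm.toAlgHom)
        (extS_comp _ _ fun g => φ.apply_symm_apply g) (extS_comp _ _ fun g => φ.symm_apply_apply g)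
    refine ⟨e1.symm.trans e2, ?_⟩
    have h1 : e1 (rename Sum.inl (stabS g m) + X (Sum.inr 0) * X (Sum.inr 1)) =
        stabS g (m + 1) := by
      show rename _ _ = _
      exact stabS_succ g m
    show e2 (e1.symm (stabS g (m + 1))) = _
    rw [← h1, AlgEquiv.symm_apply_apply]
    show extS φ.toAlgHom _ = _
    rw [map_add, map_mul, extS_rename, extS_inr, extS_inr]
    rfl

theorem isStab_zero {ρ₀ : Type} [Finite ρ₀] (g : MvPolynomial ρ₀ ℤ) : IsStab g ρ₀ 0 g := by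
  refine ⟨(renameEquiv ℤ (Equiv.sumEmpty ρ₀ (Fin 0 ⊕ Fin 0)).symm).symm, ?_⟩
  rw [AlgEquiv.symm_apply_eq]
  unfold stabS
  rw [renameEquiv_apply, Finset.univ_eq_empty, Finset.sum_empty, add_zero]
  rfl

/-- stabilisation in a chain -/
theorem chain_stabS {PP : ∀ (ρ : Type) [Finite ρ], ℕ → MvPolynomial ρ ℤ → Prop} (hc : Chain PP)
    {ρ₀ : Type} [Finite ρ₀] {g : MvPolynomial ρ₀ ℤ} {m : ℕ} (h : PP ρ₀ m g) (κ : ℕ) :
    PP (ρ₀ ⊕ (Fin κ ⊕ Fin κ)) (m + κ) (stabS g κ) := by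
  induction κ with
  | zero =>
    have h1 := hc.iso _ _ (renameEquiv ℤ (Equiv.sumEmpty ρ₀ (Fin 0 ⊕ Fin 0)).symm) m g h
    have e : renameEquiv ℤ (Equiv.sumEmpty ρ₀ (Fin 0 ⊕ Fin 0)).symm g = stabS g 0 := by
      unfold stabS
      rw [renameEquiv_apply, Finset.univ_eq_empty, Finset.sum_empty, add_zero]
      rfl
    rwa [e] at h1
  | succ κ ih =>
    have h1 := hc.step _ _ _ ih
    have h2 := hc.iso _ _ (renameEquiv ℤ (Equiv.ofBijective _ (up_bij ρ₀ κ))) _ _ h1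
    have e : renameEquiv ℤ (Equiv.ofBijective _ (up_bij ρ₀ κ))
        (rename Sum.inl (stabS g κ) + X (Sum.inr 0) * X (Sum.inr 1)) = stabS g (κ + 1) := by
      rw [renameEquiv_apply]
      exact stabS_succ g κ
    rw [e] at h2
    exact h2

end Pool.Agent.Y229.PA
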