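import Pool.Agent.Y229.MS.Stm
import Pool.Agent.TH216.EP.GenF

/-!
# Project PA: statements
-/

set_option autoImplicit false

namespace Pool.Agent.Y229.PA

open MvPolynomial
open Pool.Agent.Y229.MS (addyz)

/-- A property of pairs (number of moves, polynomial over `k`) preserved by isomorphisms of
polynomial rings and by adding the product of two new variables (compare
`Pool.Agent.W206.CU.Chain`). -/
structure ChainK {k : Type} [Field k]
    (PP : ∀ (ρ : Type) [Finite ρ], ℕ → MvPolynomial ρ k → Prop) : Prop where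
  iso : ∀ (ρ ρ' : Type) [Finite ρ] [Finite ρ'] (e : MvPolynomial ρ k ≃ₐ[k] MvPolynomial ρ' k)
    (m : ℕ) (F : MvPolynomial ρ k), PP ρ m F → PP ρ' m (e F)
  step : ∀ (ρ : Type) [Finite ρ] (m : ℕ) (F : MvPolynomial ρ k), PP ρ m F →
    PP (ρ ⊕ Fin 2) (m + 1) (rename Sum.inl F + X (Sum.inr 0) * X (Sum.inr 1))

/-- The polynomial `q₀(x) + ∑_j t_j q_j(x)` in the variables `x` and `t`. -/
noncomputable def cubicK {k : Type} [Field k] {n r : ℕ} (q₀ : MvPolynomial (Fin n) k)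
    (q : Fin r → MvPolynomial (Fin n) k) : MvPolynomial (Fin (n + r)) k :=
  rename (Fin.castAdd r) q₀ + ∑ j, X (Fin.natAdd n j) * rename (Fin.castAdd r) (q j)

/-- (RED) every polynomial becomes, by the moves of a chain, a cubic polynomial
`q₀(x) + ∑_j t_j q_j(x)` with `deg q₀ ≤ 1` and `deg q_j ≤ 2`. -/
def TaskRED : Prop :=
  ∀ (k : Type) [Field k] (PP : ∀ (ρ : Type) [Finite ρ], ℕ → MvPolynomial ρ k → Prop),
    ChainK PP → ∀ (n : ℕ) (f : MvPolynomial (Fin n) k), PP (Fin n) 0 f →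
    ∃ (n' r m : ℕ) (q₀ : MvPolynomial (Fin n') k) (q : Fin r → MvPolynomial (Fin n') k),
      q₀.totalDegree ≤ 1 ∧ (∀ j, (q j).totalDegree ≤ 2) ∧ PP (Fin (n' + r)) m (cubicK q₀ q)

/-- (REN) `F + y z` is again of this shape. -/
def TaskREN : Prop :=
  ∀ (k : Type) [Field k] (n r : ℕ) (q₀ : MvPolynomial (Fin n) k)
    (q : Fin r → MvPolynomial (Fin n) k), q₀.totalDegree ≤ 1 → (∀ j, (q j).totalDegree ≤ 2) →
    ∃ (q₀' : MvPolynomial (Fin (n + 1)) k) (q' : Fin (r + 1) → MvPolynomial (Fin (n + 1)) k),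
      q₀'.totalDegree ≤ 1 ∧ (∀ j, (q' j).totalDegree ≤ 2) ∧
      ∃ ψ : MvPolynomial (Fin (n + r + 2)) k ≃ₐ[k] MvPolynomial (Fin (n + 1 + (r + 1))) k,
        ψ (addyz (cubicK q₀ q)) = cubicK q₀' q'

/-- (GEN) the theorem `gen_ordF0` with `h = 0`, up to the torus action. -/
def TaskGEN : Prop :=
  ∀ (r N : ℕ), 0 < r → ∀ v : Fin r → Fin N → ℕ, Function.Injective v → (∀ j, v j ≠ 0) →
    ∃ g : MvPolynomial (Fin r) ℚ, g ≠ 0 ∧ ∀ (c : Fin r → ℤ) (t : Fin N → ℚ), (∀ i, t i ≠ 0) →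
      eval (fun j => (c j : ℚ) * ∏ i, t i ^ v j i) g ≠ 0 →
      Pool.Agent.TH216.EP.ConcF v 0 c

end Pool.Agent.Y229.PA
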