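import Pool.Agent.Y229.PA.Tr
import Pool.Agent.Y229.PA.GkS
import Pool.Agent.Y229.PA.Stm

/-!
# Compositions with generic coefficients: the sparse polynomial of the graph
-/

set_option autoImplicit false

namespace Pool.Agent.Y229.PA

open MvPolynomial Pool.Agent.W206.CU Pool.Agent.TH216.MF
open Pool.Agent.W425.ND (spa)
open Pool.Agent.H628R4.TP (IsBFunction)
open Pool.Agent.Y229.RE (stab)
open Pool.Agent.TH216.EP (ConcF LevOK)

variable {n κ r s : ℕ}

/-- `Φ_a(x, z) = ∑_j a_j x^{m_j} z^{m_j'}` -/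
noncomputable def outerC (m : Fin r → Fin n ⊕ Fin κ → ℕ) (a : Fin r → ℤ) :
    MvPolynomial (Fin n ⊕ Fin κ) ℤ := ∑ j, C (a j) * ∏ i, X i ^ m j i

/-- `p_i(x) = ∑_{ι l = i} b_l x^{w_l}` -/
noncomputable def innerC (w : Fin s → Fin n → ℕ) (ι : Fin s → Fin κ) (b : Fin s → ℤ) (i : Fin κ) :
    MvPolynomial (Fin n) ℤ := ∑ l, if ι l = i then C (b l) * ∏ x, X x ^ w l x else 0

/-- the composition `Φ_a(x, p_b(x))` -/
noncomputable def compC (m : Fin r → Fin n ⊕ Fin κ → ℕ) (w : Fin s → Fin n → ℕ)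
    (ι : Fin s → Fin κ) (a : Fin r → ℤ) (b : Fin s → ℤ) : MvPolynomial (Fin n) ℤ :=
  aeval (Sum.elim X (innerC w ι b)) (outerC m a)

/-- The exponents of `Φ(x, z) + ∑ y_i (z_i - p_i(x))`, in the variables `x`, `y`, `z`. -/
def expo (m : Fin r → Fin n ⊕ Fin κ → ℕ) (w : Fin s → Fin n → ℕ) (ι : Fin s → Fin κ) :
    Fin r ⊕ (Fin s ⊕ Fin κ) → Fin n ⊕ (Fin κ ⊕ Fin κ) → ℕ
  | Sum.inl j => Sum.elim (fun i => m j (Sum.inl i)) (Sum.elim 0 fun i => m j (Sum.inr i))
  | Sum.inr (Sum.inl l) => Sum.elim (w l) (Sum.elim (Pi.single (ι l) 1) 0)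
  | Sum.inr (Sum.inr i) => Sum.elim 0 (Sum.elim (Pi.single i 1) (Pi.single i 1))

/-- the splitting of `a + (b + c)` elements -/
def spl (a b c : ℕ) : Fin (a + (b + c)) ≃ Fin a ⊕ (Fin b ⊕ Fin c) :=
  finSumFinEquiv.symm.trans (Equiv.sumCongr (Equiv.refl (Fin a)) finSumFinEquiv.symm)

/-- the exponents, indexed by `Fin` -/
def expG (m : Fin r → Fin n ⊕ Fin κ → ℕ) (w : Fin s → Fin n → ℕ) (ι : Fin s → Fin κ)
    (J : Fin (r + (s + κ))) (I : Fin (n + (κ + κ))) : ℕ :=
  expo m w ι (spl r s κ J) (spl n κ κ I)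

/-- the coefficients -/
def coefG (a : Fin r → ℤ) (b : Fin s → ℤ) (J : Fin (r + (s + κ))) : ℤ :=
  Sum.elim a (Sum.elim (fun l => -b l) fun _ : Fin κ => 1) (spl r s κ J)

theorem outerC_embS (m : Fin r → Fin n ⊕ Fin κ → ℕ) (w : Fin s → Fin n → ℕ) (ι : Fin s → Fin κ)
    (a : Fin r → ℤ) :
    rename embS (outerC m a) = ∑ j, C (a j) * ∏ I, X I ^ expo m w ι (Sum.inl j) I := by
  unfold outerC
  rw [map_sum]
  refine Finset.sum_congr rfl fun j _ => ?_
  rw [map_mul, rename_C, map_prod]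
  congr 1
  simp only [map_pow, rename_X, Fintype.prod_sum_type, expo, Sum.elim_inl, Sum.elim_inr,
    Pi.zero_apply, pow_zero, Finset.prod_const_one, one_mul]
  rfl

theorem inner_embS (m : Fin r → Fin n ⊕ Fin κ → ℕ) (w : Fin s → Fin n → ℕ) (ι : Fin s → Fin κ)
    (b : Fin s → ℤ) :
    ∑ i : Fin κ, X (Sum.inr (Sum.inl i)) * rename (Sum.inl : Fin n → Fin n ⊕ (Fin κ ⊕ Fin κ))
        (innerC w ι b i) =
      ∑ l, C (b l) * ∏ I, X I ^ expo m w ι (Sum.inr (Sum.inl l)) I := by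
  unfold innerC
  simp only [map_sum, Finset.mul_sum]
  rw [Finset.sum_comm]
  refine Finset.sum_congr rfl fun l _ => ?_
  rw [Finset.sum_eq_single (ι l)]
  · rw [if_pos rfl, map_mul, rename_C, map_prod]
    simp only [map_pow, rename_X, Fintype.prod_sum_type, expo, Sum.elim_inl, Sum.elim_inr,
      Pi.zero_apply, pow_zero, Finset.prod_const_one, mul_one]
    have h1 : ∏ i : Fin κ, (X (Sum.inr (Sum.inl i)) : MvPolynomial (Fin n ⊕ (Fin κ ⊕ Fin κ)) ℤ) ^
        (Pi.single (ι l) 1 : Fin κ → ℕ) i = X (Sum.inr (Sum.inl (ι l))) := by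
      rw [Finset.prod_eq_single (ι l)]
      · rw [Pi.single_eq_same, pow_one]
      · intro i _ hi
        rw [Pi.single_eq_of_ne hi, pow_zero]
      · intro h
        exact absurd (Finset.mem_univ _) h
    rw [h1]
    ring
  · intro i _ hi
    rw [if_neg (Ne.symm hi), map_zero, mul_zero]
  · intro h
    exact absurd (Finset.mem_univ _) h

theorem yz_embS (m : Fin r → Fin n ⊕ Fin κ → ℕ) (w : Fin s → Fin n → ℕ) (ι : Fin s → Fin κ)
    (i : Fin κ) :
    (X (Sum.inr (Sum.inl i)) * X (Sum.inr (Sum.inr i)) :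
      MvPolynomial (Fin n ⊕ (Fin κ ⊕ Fin κ)) ℤ) =
      ∏ I, X I ^ expo m w ι (Sum.inr (Sum.inr i)) I := by
  simp only [Fintype.prod_sum_type, expo, Sum.elim_inl, Sum.elim_inr,
    Pi.zero_apply, pow_zero, Finset.prod_const_one, one_mul]
  congr 1
  · rw [Finset.prod_eq_single i]
    · rw [Pi.single_eq_same, pow_one]
    · intro j _ hj
      rw [Pi.single_eq_of_ne hj, pow_zero]
    · intro h
      exact absurd (Finset.mem_univ _) h
  · rw [Finset.prod_eq_single i]
    · rw [Pi.single_eq_same, pow_one]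
    · intro j _ hj
      rw [Pi.single_eq_of_ne hj, pow_zero]
    · intro h
      exact absurd (Finset.mem_univ _) h

/-- `Φ(x, z) + ∑ y_i (z_i - p_i(x))` is sparse -/
theorem graph_eq (m : Fin r → Fin n ⊕ Fin κ → ℕ) (w : Fin s → Fin n → ℕ) (ι : Fin s → Fin κ)
    (a : Fin r → ℤ) (b : Fin s → ℤ) :
    graphS (outerC m a) (innerC w ι b) =
      ∑ J : Fin r ⊕ (Fin s ⊕ Fin κ),
        C (Sum.elim a (Sum.elim (fun l => -b l) fun _ : Fin κ => 1) J) *
          ∏ I, X I ^ expo m w ι J I := by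
  unfold graphS
  rw [Fintype.sum_sum_type, Fintype.sum_sum_type]
  simp only [Sum.elim_inl, Sum.elim_inr]
  rw [outerC_embS m w ι a]
  congr 1
  have h1 : ∑ i : Fin κ, (X (Sum.inr (Sum.inl i)) *
      (X (Sum.inr (Sum.inr i)) - rename Sum.inl (innerC w ι b i)) :
        MvPolynomial (Fin n ⊕ (Fin κ ⊕ Fin κ)) ℤ) =
      ∑ i : Fin κ, X (Sum.inr (Sum.inl i)) * X (Sum.inr (Sum.inr i)) -
      ∑ i : Fin κ, X (Sum.inr (Sum.inl i)) *
        rename (Sum.inl : Fin n → Fin n ⊕ (Fin κ ⊕ Fin κ)) (innerC w ι b i) := by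
    rw [← Finset.sum_sub_distrib]
    exact Finset.sum_congr rfl fun i _ => mul_sub _ _ _
  rw [h1, inner_embS m w ι b, sub_eq_add_neg, add_comm, ← Finset.sum_neg_distrib]
  congr 1
  · refine Finset.sum_congr rfl fun l _ => ?_
    rw [C_neg, neg_mul]
  · refine Finset.sum_congr rfl fun i _ => ?_
    rw [C_1, one_mul]
    exact yz_embS m w ι i

/-- `Φ(x, z) + ∑ y_i (z_i - p_i(x))` is `spa` -/
theorem graph_spa (m : Fin r → Fin n ⊕ Fin κ → ℕ) (w : Fin s → Fin n → ℕ) (ι : Fin s → Fin κ)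
    (a : Fin r → ℤ) (b : Fin s → ℤ) :
    renameEquiv ℤ (spl n κ κ).symm (graphS (outerC m a) (innerC w ι b)) =
      spa (expG m w ι) (coefG (κ := κ) a b) := by
  rw [graph_eq, renameEquiv_apply, map_sum]
  unfold spa
  refine (Fintype.sum_equiv (spl r s κ) _ _ fun J => ?_).symm
  rw [map_mul, rename_C, map_prod]
  congr 1
  refine Fintype.prod_equiv (spl n κ κ) _ _ fun I => ?_
  rw [map_pow, rename_X, Equiv.symm_apply_apply]
  rfl

/-- the exponents are different -/
theorem expo_inj {m : Fin r → Fin n ⊕ Fin κ → ℕ} (hm : Function.Injective m)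
    {w : Fin s → Fin n → ℕ} {ι : Fin s → Fin κ}
    (hw : Function.Injective fun l => (ι l, w l)) : Function.Injective (expo m w ι) := by
  have key : ∀ (J J' : Fin r ⊕ (Fin s ⊕ Fin κ)), expo m w ι J = expo m w ι J' →
      (∀ i, expo m w ι J (Sum.inl i) = expo m w ι J' (Sum.inl i)) ∧
      (∀ i, expo m w ι J (Sum.inr (Sum.inl i)) = expo m w ι J' (Sum.inr (Sum.inl i))) ∧
      (∀ i, expo m w ι J (Sum.inr (Sum.inr i)) = expo m w ι J' (Sum.inr (Sum.inr i))) :=
    fun J J' h => ⟨fun i => by rw [h], fun i => by rw [h], fun i => by rw [h]⟩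
  rintro (j | l | i) (j' | l' | i') h <;> obtain ⟨h1, h2, h3⟩ := key _ _ h <;>
    simp only [expo, Sum.elim_inl, Sum.elim_inr, Pi.zero_apply] at h1 h2 h3
  · congr 1
    apply hm
    funext i
    rcases i with i | i
    · exact h1 i
    · exact h3 i
  · exact absurd (h2 (ι l')) (by rw [Pi.single_eq_same]; exact zero_ne_one)
  · exact absurd (h2 i') (by rw [Pi.single_eq_same]; exact zero_ne_one)
  · exact absurd (h2 (ι l)) (by rw [Pi.single_eq_same]; exact one_ne_zero)
  · have h4 : ι l = ι l' := by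
      by_contra hne
      have := h2 (ι l)
      rw [Pi.single_eq_same, Pi.single_eq_of_ne hne] at this
      exact one_ne_zero this
    have h5 : l = l' := hw (Prod.ext h4 (funext h1))
    rw [h5]
  · exact absurd (h3 i') (by rw [Pi.single_eq_same]; exact zero_ne_one)
  · exact absurd (h2 i) (by rw [Pi.single_eq_same]; exact one_ne_zero)
  · exact absurd (h3 i) (by rw [Pi.single_eq_same]; exact one_ne_zero)
  · have h4 : i = i' := by
      by_contra hne
      have := h2 i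
      rw [Pi.single_eq_same, Pi.single_eq_of_ne hne] at this
      exact one_ne_zero this
    rw [h4]

theorem expG_inj {m : Fin r → Fin n ⊕ Fin κ → ℕ} (hm : Function.Injective m)
    {w : Fin s → Fin n → ℕ} {ι : Fin s → Fin κ}
    (hw : Function.Injective fun l => (ι l, w l)) : Function.Injective (expG m w ι) := by
  intro J J' h
  apply (spl r s κ).injective
  apply expo_inj hm hw
  funext I
  have := congrFun h ((spl n κ κ).symm I)
  simpa only [expG, Equiv.apply_symm_apply] using this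

theorem expG_ne {m : Fin r → Fin n ⊕ Fin κ → ℕ} (hm0 : ∀ j, m j ≠ 0)
    {w : Fin s → Fin n → ℕ} {ι : Fin s → Fin κ} (J : Fin (r + (s + κ))) :
    expG m w ι J ≠ 0 := by
  intro h
  have h' : ∀ I, expo m w ι (spl r s κ J) I = 0 := by
    intro I
    have := congrFun h ((spl n κ κ).symm I)
    simpa only [expG, Equiv.apply_symm_apply, Pi.zero_apply] using this
  generalize spl r s κ J = J' at h'
  rcases J' with j | l | i
  · apply hm0 j
    funext i
    rcases i with i | i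
    · exact h' (Sum.inl i)
    · exact h' (Sum.inr (Sum.inr i))
  · have := h' (Sum.inr (Sum.inl (ι l)))
    simp [expo] at this
  · have := h' (Sum.inr (Sum.inl i))
    simp [expo] at this

end Pool.Agent.Y229.PA
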