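import Pool.Agent.W206.CU.Zeta2

/-!
# Poincaré series of `f` and of `f + ∑ y_i z_i`, and their poles
-/

set_option autoImplicit false

namespace Pool.Agent.Y229.PA

open MvPolynomial Pool.Agent.W206.CU

/-- The relation of the numbers of solutions along the moves which start at `f`. -/
def Fol {ρ₀ : Type} (f : MvPolynomial ρ₀ ℤ) (ρ : Type) [Finite ρ] (m : ℕ)
    (F : MvPolynomial ρ ℤ) : Prop :=
  ∀ (p : ℕ) [Fact p.Prime] (k : ℕ), dens p F (k + 1) - dens p F k / p =
    ((1 / (p : ℚ)) ^ m) ^ (k + 1) * (dens p f (k + 1) - dens p f k / p)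

theorem fol_chain {ρ₀ : Type} (f : MvPolynomial ρ₀ ℤ) : Chain (Fol f) where
  iso := by
    intro ρ ρ' _ _ e m F h p _ k
    rw [dens_iso, dens_iso, h p k]
  step := by
    intro ρ _ m F h p _ k
    rw [dens_step, h p k, ← mul_assoc, ← mul_pow, ← pow_succ']

theorem fol_self {ρ₀ : Type} [Finite ρ₀] (f : MvPolynomial ρ₀ ℤ) : Fol f ρ₀ 0 f := by
  intro p _ k
  rw [pow_zero, one_pow, one_mul]

/-- `f + ∑ y_i z_i` -/
noncomputable def stabS {ρ₀ : Type} (f : MvPolynomial ρ₀ ℤ) (κ : ℕ) :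
    MvPolynomial (ρ₀ ⊕ (Fin κ ⊕ Fin κ)) ℤ :=
  rename Sum.inl f + ∑ i : Fin κ, X (Sum.inr (Sum.inl i)) * X (Sum.inr (Sum.inr i))

/-- the renaming of the variables -/
def up (ρ₀ : Type) (κ : ℕ) : (ρ₀ ⊕ (Fin κ ⊕ Fin κ)) ⊕ Fin 2 → ρ₀ ⊕ (Fin (κ + 1) ⊕ Fin (κ + 1)) :=
  Sum.elim (Sum.map id (Sum.map Fin.castSucc Fin.castSucc))
    ![Sum.inr (Sum.inl (Fin.last κ)), Sum.inr (Sum.inr (Fin.last κ))]

theorem up_bij (ρ₀ : Type) (κ : ℕ) : Function.Bijective (up ρ₀ κ) := by
  constructor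
  · rintro ((x | x | x) | x) ((y | y | y) | y) h
    · simpa [up] using h
    · simp [up] at h
    · simp [up] at h
    · fin_cases y <;> simp [up] at h
    · simp [up] at h
    · simpa [up] using h
    · simp [up] at h
    · fin_cases y
      · exact absurd (by simpa [up] using h) (Fin.castSucc_lt_last x).ne
      · simp [up] at h
    · simp [up] at h
    · simp [up] at h
    · simpa [up] using h
    · fin_cases y
      · simp [up] at h
      · exact absurd (by simpa [up] using h) (Fin.castSucc_lt_last x).ne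
    · fin_cases x <;> simp [up] at h
    · fin_cases x
      · exact absurd (by simpa [up] using h.symm) (Fin.castSucc_lt_last y).ne
      · simp [up] at h
    · fin_cases x
      · simp [up] at h
      · exact absurd (by simpa [up] using h.symm) (Fin.castSucc_lt_last y).ne
    · fin_cases x <;> fin_cases y
      · rfl
      · simp [up] at h
      · simp [up] at h
      · rfl
  · rintro (x | x | x)
    · exact ⟨Sum.inl (Sum.inl x), rfl⟩
    · refine Fin.lastCases ?_ (fun x => ?_) x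
      · exact ⟨Sum.inr 0, rfl⟩
      · exact ⟨Sum.inl (Sum.inr (Sum.inl x)), rfl⟩
    · refine Fin.lastCases ?_ (fun x => ?_) x
      · exact ⟨Sum.inr 1, rfl⟩
      · exact ⟨Sum.inl (Sum.inr (Sum.inr x)), rfl⟩

theorem stabS_succ {ρ₀ : Type} (f : MvPolynomial ρ₀ ℤ) (κ : ℕ) :
    rename (up ρ₀ κ) (rename Sum.inl (stabS f κ) + X (Sum.inr 0) * X (Sum.inr 1)) =
      stabS f (κ + 1) := by
  unfold stabS
  rw [map_add, map_add, map_add, map_mul, rename_rename, rename_rename, map_sum, map_sum,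
    Fin.sum_univ_castSucc, ← add_assoc]
  congr 1
  · congr 1
    refine Finset.sum_congr rfl fun i _ => ?_
    simp only [map_mul, rename_X]
    rfl
  · rw [rename_X, rename_X]
    rfl

theorem fol_stab {ρ₀ : Type} [Finite ρ₀] (f : MvPolynomial ρ₀ ℤ) (κ : ℕ) :
    Fol f (ρ₀ ⊕ (Fin κ ⊕ Fin κ)) κ (stabS f κ) := by
  induction κ with
  | zero =>
    have h := (fol_chain f).iso _ _ (renameEquiv ℤ (Equiv.sumEmpty ρ₀ (Fin 0 ⊕ Fin 0)).symm) 0 f
      (fol_self f)
    have e : renameEquiv ℤ (Equiv.sumEmpty ρ₀ (Fin 0 ⊕ Fin 0)).symm f = stabS f 0 := by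
      unfold stabS
      rw [renameEquiv_apply, Finset.univ_eq_empty, Finset.sum_empty, add_zero]
      rfl
    rwa [e] at h
  | succ κ ih =>
    have h := (fol_chain f).step _ κ _ ih
    have h2 := (fol_chain f).iso _ _ (renameEquiv ℤ (Equiv.ofBijective _ (up_bij ρ₀ κ))) _ _ h
    have e : renameEquiv ℤ (Equiv.ofBijective _ (up_bij ρ₀ κ))
        (rename Sum.inl (stabS f κ) + X (Sum.inr 0) * X (Sum.inr 1)) = stabS f (κ + 1) := by
      rw [renameEquiv_apply]
      exact stabS_succ f κ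
    rwa [e] at h2

/-! ### The Poincaré series -/

theorem coeff_poin {ρ : Type} (p : ℕ) (F : MvPolynomial ρ ℤ) (k : ℕ) :
    PowerSeries.coeff k (poincare p F) = ((dens p F k : ℚ) : ℂ) := by
  rw [poincare, PowerSeries.coeff_mk, dens, numIn]
  push_cast
  rfl

theorem poin_fol {ρ₀ : Type} [Finite ρ₀] {f : MvPolynomial ρ₀ ℤ} {ρ : Type} [Finite ρ] {m : ℕ}
    {F : MvPolynomial ρ ℤ} (h : Fol f ρ m F) (p : ℕ) [Fact p.Prime] :
    ((1 - Polynomial.C ((p : ℂ)⁻¹) * Polynomial.X : Polynomial ℂ) : PowerSeries ℂ) *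
      poincare p F =
    ((1 - Polynomial.C ((p : ℂ)⁻¹ * ((p : ℂ)⁻¹) ^ m) * Polynomial.X : Polynomial ℂ) :
      PowerSeries ℂ) * PowerSeries.rescale (((p : ℂ)⁻¹) ^ m) (poincare p f) := by
  ext k
  rcases k with _ | k
  · rw [Polynomial.coe_sub, Polynomial.coe_one, Polynomial.coe_mul, Polynomial.coe_X,
      Polynomial.coe_C, Polynomial.coe_sub, Polynomial.coe_one, Polynomial.coe_mul,
      Polynomial.coe_X, Polynomial.coe_C, sub_mul, one_mul, map_sub, sub_mul, one_mul, map_sub,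
      coeff_poin, dens_zero, mul_assoc, PowerSeries.coeff_C_mul, PowerSeries.coeff_zero_X_mul,
      mul_assoc, PowerSeries.coeff_C_mul, PowerSeries.coeff_zero_X_mul,
      PowerSeries.coeff_rescale, coeff_poin, dens_zero]
    simp
  · have h1 := h p k
    have h2 := congrArg (fun x : ℚ => (x : ℂ)) h1
    push_cast at h2
    rw [Polynomial.coe_sub, Polynomial.coe_one, Polynomial.coe_mul, Polynomial.coe_X,
      Polynomial.coe_C, Polynomial.coe_sub, Polynomial.coe_one, Polynomial.coe_mul,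
      Polynomial.coe_X, Polynomial.coe_C, sub_mul, one_mul, map_sub, sub_mul, one_mul, map_sub,
      coeff_poin, mul_assoc, PowerSeries.coeff_C_mul, PowerSeries.coeff_succ_X_mul, coeff_poin,
      mul_assoc, PowerSeries.coeff_C_mul, PowerSeries.coeff_succ_X_mul,
      PowerSeries.coeff_rescale, PowerSeries.coeff_rescale, coeff_poin, coeff_poin]
    rw [one_div] at h2
    linear_combination h2

/-- Evaluation of an identity of power series at a point of absolute convergence. -/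
theorem eval_ident {D E : Polynomial ℂ} {Q : PowerSeries ℂ} {T : ℂ}
    (hQ : Summable fun k => ‖PowerSeries.coeff k Q * T ^ k‖)
    (h : (D : PowerSeries ℂ) * Q = (E : PowerSeries ℂ)) :
    D.eval T * ∑' k, PowerSeries.coeff k Q * T ^ k = E.eval T := by
  have hpol : ∀ P : Polynomial ℂ, HasSum (fun k => P.coeff k * T ^ k) (P.eval T) := by
    intro P
    rw [Polynomial.eval_eq_sum_range]
    refine hasSum_sum_of_ne_finset_zero fun k hk => ?_
    rw [Finset.mem_range, not_lt] at hk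
    rw [Polynomial.coeff_eq_zero_of_natDegree_lt (by omega), zero_mul]
  have hDn : Summable fun k => ‖D.coeff k * T ^ k‖ := by
    refine summable_of_ne_finset_zero (s := Finset.range (D.natDegree + 1)) fun k hk => ?_
    rw [Finset.mem_range, not_lt] at hk
    rw [Polynomial.coeff_eq_zero_of_natDegree_lt (by omega), zero_mul, norm_zero]
  have h1 := tsum_mul_tsum_eq_tsum_sum_antidiagonal_of_summable_norm hDn hQ
  rw [(hpol D).tsum_eq] at h1
  rw [h1, ← (hpol E).tsum_eq]
  refine tsum_congr fun k => ?_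
  have h2 := congrArg (PowerSeries.coeff k) h
  rw [PowerSeries.coeff_mul, Polynomial.coeff_coe] at h2
  rw [← h2, Finset.sum_mul]
  refine Finset.sum_congr rfl fun x hx => ?_
  rw [Polynomial.coeff_coe, ← Finset.HasAntidiagonal.mem_antidiagonal.1 hx, pow_add]
  ring

theorem dens_anti {n : ℕ} (p : ℕ) [hp : Fact p.Prime] (F : MvPolynomial (Fin n) ℤ) (k : ℕ) :
    dens p F (k + 1) ≤ dens p F k := by
  letI : MeasurableSpace (Fin n → ℤ_[p]) := borel _
  haveI : BorelSpace (Fin n → ℤ_[p]) := ⟨rfl⟩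
  have h1 := measure_sol (p := p) F (k + 1)
  have h2 := measure_sol (p := p) F k
  have h3 : lev (p := p) F (k + 1) ⊆ lev F k := fun x hx => (pow_dvd_pow _ (Nat.le_succ k)).trans hx
  have h4 := ENNReal.toReal_mono (MeasureTheory.measure_ne_top (hm p (Fin n)) _)
    (MeasureTheory.measure_mono h3)
  rw [h1, h2] at h4
  exact_mod_cast h4

/-- A pole of the Poincaré series is outside of the unit circle or equal to `1`. -/
theorem pole_norm {n : ℕ} (p : ℕ) [hp : Fact p.Prime] (f : MvPolynomial (Fin n) ℤ) {T₀ : ℂ}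
    {μ : ℕ} (hμ : 0 < μ) (hP : IsPoleOfOrder (poincare p f) T₀ μ) : T₀ = 1 ∨ 1 < ‖T₀‖ := by
  obtain ⟨A, B, hA, hB, h⟩ := hP
  by_contra hcon
  rw [not_or, not_lt] at hcon
  obtain ⟨hne, hle⟩ := hcon
  -- `(1 - X) P`
  set Q : PowerSeries ℂ := ((1 - Polynomial.X : Polynomial ℂ) : PowerSeries ℂ) * poincare p f
    with hQ
  have hQ0 : PowerSeries.coeff 0 Q = 1 := by
    rw [hQ, Polynomial.coe_sub, Polynomial.coe_one, Polynomial.coe_X, sub_mul, one_mul, map_sub,
      PowerSeries.coeff_zero_X_mul, coeff_poin, dens_zero]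
    simp
  have hQs : ∀ k, PowerSeries.coeff (k + 1) Q =
      (((dens p f (k + 1) - dens p f k : ℚ)) : ℂ) := by
    intro k
    rw [hQ, Polynomial.coe_sub, Polynomial.coe_one, Polynomial.coe_X, sub_mul, one_mul, map_sub,
      PowerSeries.coeff_succ_X_mul, coeff_poin, coeff_poin]
    push_cast
    ring
  have hsum : Summable fun k => ‖PowerSeries.coeff k Q * T₀ ^ k‖ := by
    rw [← summable_nat_add_iff 1]
    have hb : ∀ k, ‖PowerSeries.coeff (k + 1) Q * T₀ ^ (k + 1)‖ ≤
        ((dens p f k : ℚ) : ℝ) - ((dens p f (k + 1) : ℚ) : ℝ) := by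
      intro k
      rw [norm_mul, norm_pow, hQs]
      have h1 : ‖(((dens p f (k + 1) - dens p f k : ℚ)) : ℂ)‖ =
          ((dens p f k : ℚ) : ℝ) - ((dens p f (k + 1) : ℚ) : ℝ) := by
        have e : (((dens p f (k + 1) - dens p f k : ℚ)) : ℂ) =
            ((((dens p f (k + 1) : ℚ) : ℝ) - ((dens p f k : ℚ) : ℝ) : ℝ) : ℂ) := by
          push_cast
          rfl
        have h5 : ((dens p f (k + 1) : ℚ) : ℝ) ≤ ((dens p f k : ℚ) : ℝ) := by
          exact_mod_cast dens_anti p f k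
        rw [e, Complex.norm_real, Real.norm_eq_abs, abs_of_nonpos (by linarith), neg_sub]
      rw [h1]
      have h2 : (0 : ℝ) ≤ ((dens p f k : ℚ) : ℝ) - ((dens p f (k + 1) : ℚ) : ℝ) := by
        have h5 : ((dens p f (k + 1) : ℚ) : ℝ) ≤ ((dens p f k : ℚ) : ℝ) := by
          exact_mod_cast dens_anti p f k
        linarith
      exact mul_le_of_le_one_right h2 (pow_le_one₀ (norm_nonneg _) hle)
    refine Summable.of_nonneg_of_le (fun k => norm_nonneg _) hb ?_
    refine summable_of_sum_range_le (c := 1) (fun k => ?_) fun N => ?_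
    · have h5 : ((dens p f (k + 1) : ℚ) : ℝ) ≤ ((dens p f k : ℚ) : ℝ) := by
        exact_mod_cast dens_anti p f k
      linarith
    · rw [Finset.sum_range_sub']
      have h5 : (0 : ℝ) ≤ ((dens p f N : ℚ) : ℝ) := by exact_mod_cast dens_nonneg p f N
      have h6 : ((dens p f 0 : ℚ) : ℝ) ≤ 1 := by exact_mod_cast dens_le_one p f 0
      linarith
  have h1 : ((((Polynomial.X - Polynomial.C T₀) ^ μ * B : Polynomial ℂ)) : PowerSeries ℂ) * Q =
      ((A * (1 - Polynomial.X) : Polynomial ℂ) : PowerSeries ℂ) := by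
    rw [hQ, Polynomial.coe_mul A, ← h]
    ring
  have h2 := eval_ident hsum h1
  rw [Polynomial.eval_mul, Polynomial.eval_pow, Polynomial.eval_sub, Polynomial.eval_X,
    Polynomial.eval_C, sub_self, zero_pow hμ.ne', zero_mul, zero_mul, Polynomial.eval_mul,
    Polynomial.eval_sub, Polynomial.eval_one, Polynomial.eval_X] at h2
  rcases mul_eq_zero.1 h2.symm with h3 | h3
  · exact hA h3
  · exact hne (by linear_combination -h3)

/-- The transfer of the poles. -/
theorem pole_down {ρ₀ : Type} [Finite ρ₀] {f : MvPolynomial ρ₀ ℤ} {ρ : Type} [Finite ρ] {m : ℕ}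
    {F : MvPolynomial ρ ℤ} (h : Fol f ρ m F) (hm : 1 ≤ m) (p : ℕ) [hp : Fact p.Prime] {T₀ : ℂ}
    {μ : ℕ} (hμ : 0 < μ) (hP : IsPoleOfOrder (poincare p f) T₀ μ) :
    (T₀ ≠ p ∧ T₀ * (p : ℂ) ^ m ≠ p ∧ IsPoleOfOrder (poincare p F) (T₀ * (p : ℂ) ^ m) μ) ∨
    (T₀ ≠ p ∧ T₀ * (p : ℂ) ^ m = p ∧
      IsPoleOfOrder (poincare p F) (T₀ * (p : ℂ) ^ m) (μ + 1)) ∨
    (T₀ = p ∧ IsPoleOfOrder (poincare p F) (T₀ * (p : ℂ) ^ m) (μ - 1)) := by
  have hp0 : (p : ℂ) ≠ 0 := by exact_mod_cast hp.out.ne_zero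
  set r : ℂ := ((p : ℂ)⁻¹) ^ m with hr
  have hr0 : r ≠ 0 := pow_ne_zero _ (inv_ne_zero hp0)
  have hrp : r * (p : ℂ) ^ m = 1 := by rw [hr, ← mul_pow, inv_mul_cancel₀ hp0, one_pow]
  set T₁ : ℂ := T₀ * (p : ℂ) ^ m with hT₁
  have hrT : r * T₁ = T₀ := by rw [hT₁]; linear_combination T₀ * hrp
  obtain ⟨A, B, hA, hB, h1⟩ := hP
  have h2 := congrArg (PowerSeries.rescale r) h1
  rw [map_mul, rescale_coe, rescale_coe] at h2
  set A' := A.comp (Polynomial.C r * Polynomial.X) with hA'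
  set B' := Polynomial.C (r ^ μ) * B.comp (Polynomial.C r * Polynomial.X) with hB'
  have e1 : ((Polynomial.X - Polynomial.C T₀) ^ μ * B).comp (Polynomial.C r * Polynomial.X) =
      (Polynomial.X - Polynomial.C T₁) ^ μ * B' := by
    rw [Polynomial.mul_comp, Polynomial.pow_comp, Polynomial.sub_comp, Polynomial.X_comp,
      Polynomial.C_comp]
    have e2 : (Polynomial.C r * Polynomial.X - Polynomial.C T₀ : Polynomial ℂ) =
        Polynomial.C r * (Polynomial.X - Polynomial.C T₁) := by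
      rw [mul_sub, ← Polynomial.C_mul, hrT]
    rw [e2, mul_pow, hB', ← Polynomial.C_pow]
    ring
  rw [e1] at h2
  have hA2 : A'.eval T₁ ≠ 0 := by
    rw [hA', Polynomial.eval_comp]
    simpa [hrT] using hA
  have hB2 : B'.eval T₁ ≠ 0 := by
    rw [hB', Polynomial.eval_mul, Polynomial.eval_C, Polynomial.eval_comp]
    refine mul_ne_zero (pow_ne_zero _ hr0) ?_
    simpa [hrT] using hB
  have h3 := poin_fol h p
  rw [← hr] at h3
  have h4 : (((Polynomial.X - Polynomial.C T₁) ^ μ * ((1 - Polynomial.C ((p : ℂ)⁻¹) *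
      Polynomial.X) * B') : Polynomial ℂ) : PowerSeries ℂ) * poincare p F =
      (((1 - Polynomial.C ((p : ℂ)⁻¹ * r) * Polynomial.X) * A' : Polynomial ℂ) :
        PowerSeries ℂ) := by
    rw [Polynomial.coe_mul _ A', ← h2]
    have e3 : (((Polynomial.X - Polynomial.C T₁) ^ μ * ((1 - Polynomial.C ((p : ℂ)⁻¹) *
        Polynomial.X) * B') : Polynomial ℂ) : PowerSeries ℂ) =
        ((((Polynomial.X - Polynomial.C T₁) ^ μ * B') : Polynomial ℂ) : PowerSeries ℂ) *
        ((1 - Polynomial.C ((p : ℂ)⁻¹) * Polynomial.X : Polynomial ℂ) : PowerSeries ℂ) := by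
      rw [← Polynomial.coe_mul]
      congr 1
      ring
    rw [e3, mul_assoc, h3]
    ring
  have ev1 : (1 - Polynomial.C ((p : ℂ)⁻¹ * r) * Polynomial.X : Polynomial ℂ).eval T₁ =
      1 - (p : ℂ)⁻¹ * T₀ := by
    rw [Polynomial.eval_sub, Polynomial.eval_one, Polynomial.eval_mul, Polynomial.eval_C,
      Polynomial.eval_X, mul_assoc, hrT]
  have ev2 : (1 - Polynomial.C ((p : ℂ)⁻¹) * Polynomial.X : Polynomial ℂ).eval T₁ =
      1 - (p : ℂ)⁻¹ * T₁ := by
    rw [Polynomial.eval_sub, Polynomial.eval_one, Polynomial.eval_mul, Polynomial.eval_C,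
      Polynomial.eval_X]
  have key : ∀ x : ℂ, 1 - (p : ℂ)⁻¹ * x = 0 ↔ x = p := by
    intro x
    constructor
    · intro hx
      have : (p : ℂ) * (1 - (p : ℂ)⁻¹ * x) = 0 := by rw [hx, mul_zero]
      rw [mul_sub, ← mul_assoc, mul_inv_cancel₀ hp0] at this
      linear_combination -this
    · rintro rfl
      rw [inv_mul_cancel₀ hp0, sub_self]
  by_cases hTp : T₀ = p
  · -- one factor is cancelled
    refine Or.inr (Or.inr ⟨hTp, ?_⟩)
    obtain ⟨μ', rfl⟩ : ∃ μ', μ = μ' + 1 := ⟨μ - 1, by omega⟩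
    rw [Nat.add_sub_cancel]
    have e5 : (1 - Polynomial.C ((p : ℂ)⁻¹ * r) * Polynomial.X : Polynomial ℂ) =
        (Polynomial.X - Polynomial.C T₁) * Polynomial.C (-((p : ℂ)⁻¹ * r)) := by
      have e6 : (p : ℂ)⁻¹ * r * T₁ = 1 := by
        rw [mul_assoc, hrT, hTp, inv_mul_cancel₀ hp0]
      rw [sub_mul, ← Polynomial.C_mul, mul_neg, mul_comm T₁, e6, Polynomial.C_neg, Polynomial.C_neg,
        Polynomial.C_1]
      ring
    have hne : ((Polynomial.X - Polynomial.C T₁ : Polynomial ℂ) : PowerSeries ℂ) ≠ 0 := by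
      intro h0
      have := Polynomial.coe_injective ℂ (h0.trans (Polynomial.coe_zero (R := ℂ)).symm)
      exact Polynomial.X_sub_C_ne_zero T₁ this
    have h5 : (((Polynomial.X - Polynomial.C T₁) ^ μ' * ((1 - Polynomial.C ((p : ℂ)⁻¹) *
        Polynomial.X) * B') : Polynomial ℂ) : PowerSeries ℂ) * poincare p F =
        ((Polynomial.C (-((p : ℂ)⁻¹ * r)) * A' : Polynomial ℂ) : PowerSeries ℂ) := by
      apply mul_left_cancel₀ hne
      have e7 : ((Polynomial.X - Polynomial.C T₁ : Polynomial ℂ) : PowerSeries ℂ) *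
          ((Polynomial.C (-((p : ℂ)⁻¹ * r)) * A' : Polynomial ℂ) : PowerSeries ℂ) =
          (((1 - Polynomial.C ((p : ℂ)⁻¹ * r) * Polynomial.X) * A' : Polynomial ℂ) :
            PowerSeries ℂ) := by
        rw [← Polynomial.coe_mul, e5]
        congr 1
        ring
      rw [e7, ← h4, ← mul_assoc, ← Polynomial.coe_mul]
      congr 2
      ring
    refine ⟨_, _, ?_, ?_, h5⟩
    · rw [Polynomial.eval_mul, Polynomial.eval_C]
      exact mul_ne_zero (neg_ne_zero.2 (mul_ne_zero (inv_ne_zero hp0) hr0)) hA2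
    · rw [Polynomial.eval_mul, ev2]
      refine mul_ne_zero ?_ hB2
      intro h0
      rw [key, hT₁, hTp] at h0
      have h6 : (p : ℂ) * ((p : ℂ) ^ m - 1) = 0 := by linear_combination h0
      rcases mul_eq_zero.1 h6 with h7 | h7
      · exact hp0 h7
      · have h8 : ((p ^ m : ℕ) : ℂ) = 1 := by push_cast; linear_combination h7
        have h9 : p ^ m = 1 := by exact_mod_cast h8
        have h10 := Nat.one_lt_pow (by omega : m ≠ 0) hp.out.one_lt
        omega
  · by_cases hT1 : T₁ = p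
    · refine Or.inr (Or.inl ⟨hTp, hT1, ?_⟩)
      have e5 : (1 - Polynomial.C ((p : ℂ)⁻¹) * Polynomial.X : Polynomial ℂ) =
          (Polynomial.X - Polynomial.C T₁) * Polynomial.C (-(p : ℂ)⁻¹) := by
        have e6 : (p : ℂ)⁻¹ * T₁ = 1 := by rw [hT1, inv_mul_cancel₀ hp0]
        rw [sub_mul, ← Polynomial.C_mul, mul_neg, mul_comm T₁, e6, Polynomial.C_neg,
          Polynomial.C_neg, Polynomial.C_1]
        ring
      refine ⟨(1 - Polynomial.C ((p : ℂ)⁻¹ * r) * Polynomial.X) * A',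
        Polynomial.C (-(p : ℂ)⁻¹) * B', ?_, ?_, ?_⟩
      · rw [Polynomial.eval_mul, ev1]
        exact mul_ne_zero (fun h0 => hTp ((key _).1 h0)) hA2
      · rw [Polynomial.eval_mul, Polynomial.eval_C]
        exact mul_ne_zero (neg_ne_zero.2 (inv_ne_zero hp0)) hB2
      · rw [← h4, e5]
        congr 2
        ring
    · refine Or.inl ⟨hTp, hT1, _, _, ?_, ?_, h4⟩
      · rw [Polynomial.eval_mul, ev1]
        exact mul_ne_zero (fun h0 => hTp ((key _).1 h0)) hA2
      · rw [Polynomial.eval_mul, ev2]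
        exact mul_ne_zero (fun h0 => hT1 ((key _).1 h0)) hB2

end Pool.Agent.Y229.PA
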