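import Pool.Agent.Y229.PA.Dens
import Pool.Agent.Y229.PG.Main
import Pool.Agent.W425.PZ.Pole
import Pool.Agent.W195.PZ.Null
import Pool.Agent.TH216.EP.Fin

/-!
# Denef's question for `f` from the same question for `f + ∑ y_i z_i`
-/

set_option autoImplicit false

namespace Pool.Agent.Y229.PA

open MvPolynomial Pool.Agent.W206.CU
open Pool.Agent.H628R4.TP (IsBFunction)
open Pool.Agent.Y229.PG (BecomesG becomes_global)
open Pool.Agent.Y229.RE (stab)

theorem toC_stabS {n : ℕ} (f : MvPolynomial (Fin n) ℤ) (κ : ℕ) :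
    renameEquiv ℂ (finSumFinEquiv.symm.trans (Equiv.sumCongr (Equiv.refl (Fin n))
      (finSumFinEquiv (m := κ) (n := κ)).symm)) (stab (toC f) κ) = toC (stabS f κ) := by
  unfold stab stabS toC
  rw [renameEquiv_apply, map_add, map_add, map_sum, map_sum, rename_rename, map_rename]
  congr 1
  · congr 2
    funext i
    simp
  · refine Finset.sum_congr rfl fun i _ => ?_
    have h1 : (finSumFinEquiv.symm.trans (Equiv.sumCongr (Equiv.refl (Fin n))
        (finSumFinEquiv (m := κ) (n := κ)).symm)) (Fin.natAdd n (Fin.castAdd κ i)) =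
        Sum.inr (Sum.inl i) := by
      rw [Equiv.trans_apply, finSumFinEquiv_symm_apply_natAdd, Equiv.sumCongr_apply, Sum.map_inr,
        finSumFinEquiv_symm_apply_castAdd]
    have h2 : (finSumFinEquiv.symm.trans (Equiv.sumCongr (Equiv.refl (Fin n))
        (finSumFinEquiv (m := κ) (n := κ)).symm)) (Fin.natAdd n (Fin.natAdd κ i)) =
        Sum.inr (Sum.inr i) := by
      rw [Equiv.trans_apply, finSumFinEquiv_symm_apply_natAdd, Equiv.sumCongr_apply, Sum.map_inr,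
        finSumFinEquiv_symm_apply_natAdd]
    rw [map_mul, map_mul, rename_X, rename_X, map_X, map_X, h1, h2]

/-- **The functional equation of `G`.** -/
theorem b_up {n κ M : ℕ} {f : MvPolynomial (Fin n) ℤ} (hf : (toC f).totalDegree ≠ 0)
    {b : Polynomial ℂ} (hb : IsBFunction (toC f) b) {G : MvPolynomial (Fin M) ℤ}
    (ψ : MvPolynomial (Fin n ⊕ (Fin κ ⊕ Fin κ)) ℤ ≃ₐ[ℤ] MvPolynomial (Fin M) ℤ)
    (hψ : ψ (stabS f κ) = G) :
    b.eval (-1) = 0 ∧ ∀ c : Polynomial ℂ, b = (Polynomial.X + 1) * c →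
      IsBFunction (toC G) ((Polynomial.X + 1) * c.comp (Polynomial.X + Polynomial.C (κ : ℂ))) := by
  obtain ⟨h1, h2⟩ := becomes_global (k := κ) (G := stab (toC f) κ) hf hb ⟨AlgEquiv.refl, rfl⟩
  refine ⟨h1, fun c hc => ?_⟩
  have h3 := isBFunction_iso (renameEquiv ℂ (finSumFinEquiv.symm.trans (Equiv.sumCongr
    (Equiv.refl (Fin n)) (finSumFinEquiv (m := κ) (n := κ)).symm))) (h2 c hc)
  rw [toC_stabS] at h3
  have h4 := isBFunction_iso (isoC ψ) h3
  rwa [isoC_toC, hψ] at h4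

/-- A pole of the Poincaré series is outside of the unit circle. -/
theorem pole_gt {n : ℕ} (p : ℕ) [hp : Fact p.Prime] {f : MvPolynomial (Fin n) ℤ} (hf : f ≠ 0)
    {T₀ : ℂ} {μ : ℕ} (hμ : 0 < μ) (hP : IsPoleOfOrder (poincare p f) T₀ μ) : 1 < ‖T₀‖ := by
  obtain ⟨Z, s₀, hZ, hZi, hZo, hre⟩ := Pool.Agent.W425.PZ.pole_of_poincare p f
    (Pool.Agent.W195.PZ.null hf) hμ hP
  have h1 := re_neg_of_pole p f hZi hZo
  rw [hre] at h1
  have hlp : 0 < Real.log p := Real.log_pos (by exact_mod_cast hp.out.one_lt)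
  by_contra hcon
  rw [not_lt] at hcon
  have h2 : Real.log ‖T₀‖ ≤ 0 := Real.log_nonpos (norm_nonneg _) hcon
  have h3 : 0 ≤ -Real.log ‖T₀‖ / Real.log p := div_nonneg (by linarith) hlp.le
  linarith

theorem log_down (p : ℕ) [hp : Fact p.Prime] {T₀ : ℂ} (hT : T₀ ≠ 0) (m : ℕ) :
    -Real.log ‖T₀ * (p : ℂ) ^ m‖ / Real.log p = -Real.log ‖T₀‖ / Real.log p - m := by
  have hp0 : (0 : ℝ) < p := by exact_mod_cast hp.out.pos
  have hlp : Real.log p ≠ 0 := (Real.log_pos (by exact_mod_cast hp.out.one_lt)).ne'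
  rw [norm_mul, norm_pow, Complex.norm_natCast, Real.log_mul (norm_ne_zero_iff.2 hT)
    (pow_ne_zero _ hp0.ne'), Real.log_pow]
  field_simp
  ring

/-- **The transfer of the orders and of the multiplicities.** -/
theorem down {n κ M : ℕ} {f : MvPolynomial (Fin n) ℤ} (hf : (toC f).totalDegree ≠ 0)
    (hκ : 1 ≤ κ) {G : MvPolynomial (Fin M) ℤ}
    (ψ : MvPolynomial (Fin n ⊕ (Fin κ ⊕ Fin κ)) ℤ ≃ₐ[ℤ] MvPolynomial (Fin M) ℤ)
    (hψ : ψ (stabS f κ) = G) (p : ℕ) [hp : Fact p.Prime] {T₀ : ℂ} {μ : ℕ} (hμ : 0 < μ)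
    (hP : IsPoleOfOrder (poincare p f) T₀ μ) {b : Polynomial ℂ} (hb0 : b ≠ 0)
    (hb : IsBFunction (toC f) b) :
    ∃ (B : Polynomial ℂ) (μ₁ : ℕ), B ≠ 0 ∧ IsBFunction (toC G) B ∧
      IsPoleOfOrder (poincare p G) (T₀ * (p : ℂ) ^ κ) μ₁ ∧
      ((0 < μ₁ → μ₁ ≤ B.rootMultiplicity
          ((-Real.log ‖T₀ * (p : ℂ) ^ κ‖ / Real.log p : ℝ) : ℂ)) →
        μ ≤ b.rootMultiplicity ((-Real.log ‖T₀‖ / Real.log p : ℝ) : ℂ)) ∧
      ((0 < μ₁ → B.eval ((-Real.log ‖T₀ * (p : ℂ) ^ κ‖ / Real.log p : ℝ) : ℂ) = 0) →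
        b.eval ((-Real.log ‖T₀‖ / Real.log p : ℝ) : ℂ) = 0) := by
  have hf0 : f ≠ 0 := by
    rintro rfl
    apply hf
    rw [toC, map_zero, totalDegree_zero]
  have hT0 := pole_ne_zero hμ hP
  have hgt := pole_gt p hf0 hμ hP
  have hp1 : (1 : ℝ) < p := by exact_mod_cast hp.out.one_lt
  have hlp : 0 < Real.log p := Real.log_pos hp1
  obtain ⟨h1, h2⟩ := b_up hf hb ψ hψ
  obtain ⟨c, hc⟩ : (Polynomial.X + 1 : Polynomial ℂ) ∣ b := by
    have := Polynomial.dvd_iff_isRoot.2 h1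
    simpa using this
  have hc0 : c ≠ 0 := by
    rintro rfl
    exact hb0 (by rw [hc, mul_zero])
  have hX : (Polynomial.X + 1 : Polynomial ℂ) ≠ 0 := Polynomial.X_add_C_ne_zero 1
  have hcc : c.comp (Polynomial.X + Polynomial.C (κ : ℂ)) ≠ 0 := comp_ne_zero hc0 _
  have hfol : Fol f (Fin M) κ G := by
    have h3 := (fol_chain f).iso _ _ ψ κ _ (fol_stab f κ)
    rwa [hψ] at h3
  set t₀ : ℝ := -Real.log ‖T₀‖ / Real.log p with ht₀
  have ht₁ : -Real.log ‖T₀ * (p : ℂ) ^ κ‖ / Real.log p = t₀ - κ := log_down p hT0 κ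
  have htneg : t₀ < 0 := by
    rw [ht₀]
    exact div_neg_of_neg_of_pos (by have := Real.log_pos hgt; linarith) hlp
  have hκ' : (1 : ℝ) ≤ κ := by exact_mod_cast hκ
  have hne : (((t₀ - κ : ℝ)) : ℂ) ≠ -1 := by
    intro h
    have h3 : ((t₀ - κ : ℝ) : ℂ) = ((-1 : ℝ) : ℂ) := by rw [h]; push_cast; rfl
    have h4 : t₀ - κ = -1 := by exact_mod_cast h3
    linarith
  have hcast : (((t₀ - κ : ℝ)) : ℂ) = (t₀ : ℂ) - κ := by push_cast; rfl
  have hmB : ((Polynomial.X + 1) * c.comp (Polynomial.X + Polynomial.C (κ : ℂ))).rootMultiplicity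
      (((t₀ - κ : ℝ)) : ℂ) = c.rootMultiplicity (t₀ : ℂ) := by
    rw [Polynomial.rootMultiplicity_mul (mul_ne_zero hX hcc), rootMultiplicity_comp, hcast,
      sub_add_cancel]
    have h3 : (Polynomial.X + 1 : Polynomial ℂ).rootMultiplicity ((t₀ : ℂ) - κ) = 0 := by
      apply Polynomial.rootMultiplicity_eq_zero
      intro hroot
      apply hne
      rw [Polynomial.IsRoot.def] at hroot
      simp only [Polynomial.eval_add, Polynomial.eval_X, Polynomial.eval_one] at hroot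
      rw [hcast]
      linear_combination hroot
    rw [h3, zero_add]
  have hmb : b.rootMultiplicity (t₀ : ℂ) =
      (Polynomial.X + 1 : Polynomial ℂ).rootMultiplicity (t₀ : ℂ) +
        c.rootMultiplicity (t₀ : ℂ) := by
    rw [hc, Polynomial.rootMultiplicity_mul (hc ▸ hb0)]
  have heB : ((Polynomial.X + 1) * c.comp (Polynomial.X + Polynomial.C (κ : ℂ))).eval
      (((t₀ - κ : ℝ)) : ℂ) = 0 → b.eval (t₀ : ℂ) = 0 := by
    intro h3
    rw [Polynomial.eval_mul, Polynomial.eval_comp, Polynomial.eval_add, Polynomial.eval_add,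
      Polynomial.eval_X, Polynomial.eval_C, Polynomial.eval_one, hcast, sub_add_cancel] at h3
    rcases mul_eq_zero.1 h3 with h3 | h3
    · exact absurd (by rw [hcast]; linear_combination h3) hne
    · rw [hc, Polynomial.eval_mul, h3, mul_zero]
  have hnorm : ∀ x : ℝ, T₀ * (p : ℂ) ^ κ ≠ p := by
    intro _ h
    have h3 := congrArg norm h
    rw [norm_mul, norm_pow, Complex.norm_natCast] at h3
    have h4 : (p : ℝ) ^ 1 ≤ (p : ℝ) ^ κ := pow_le_pow_right₀ hp1.le hκ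
    rw [pow_one] at h4
    nlinarith
  rw [ht₁]
  rcases pole_down hfol hκ p hμ hP with ⟨hTp, -, hQ⟩ | ⟨-, hTp, -⟩ | ⟨hTp, hQ⟩
  · refine ⟨_, μ, mul_ne_zero hX hcc, h2 c hc, hQ, fun h3 => ?_, fun h3 => heB (h3 hμ)⟩
    have h4 := h3 hμ
    rw [hmB] at h4
    omega
  · exact absurd hTp (hnorm 0)
  · have ht : t₀ = -1 := by
      rw [ht₀, hTp, Complex.norm_natCast, neg_div, div_self hlp.ne']
    refine ⟨_, μ - 1, mul_ne_zero hX hcc, h2 c hc, hQ, fun h3 => ?_, fun _ => ?_⟩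
    · have h5 : 1 ≤ (Polynomial.X + 1 : Polynomial ℂ).rootMultiplicity (t₀ : ℂ) := by
        rw [Nat.one_le_iff_ne_zero, ← Nat.pos_iff_ne_zero, Polynomial.rootMultiplicity_pos hX,
          Polynomial.IsRoot.def, ht]
        simp
      rw [hmb]
      rcases Nat.eq_zero_or_pos (μ - 1) with h6 | h6
      · omega
      · have h4 := h3 h6
        rw [hmB] at h4
        omega
    · rw [ht]
      push_cast
      exact h1

/-- **Denef's question for stably sparse polynomials, for every prime, with orders.** -/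
theorem sparse_down {n κ M r : ℕ} (hr : 2 ≤ r) {f : MvPolynomial (Fin n) ℤ}
    (hf : (toC f).totalDegree ≠ 0) (v : Fin r → Fin M → ℕ)
    (hv : AffineIndependent ℚ (fun (j : Fin r) (i : Fin M) => (v j i : ℚ)))
    (a : Fin r → ℤ) (ha : ∀ j, a j ≠ 0)
    (ψ : MvPolynomial (Fin n ⊕ (Fin κ ⊕ Fin κ)) ℤ ≃ₐ[ℤ] MvPolynomial (Fin M) ℤ)
    (hψ : ψ (stabS f κ) = ∑ j, C (a j) * ∏ i, X i ^ v j i) {p : ℕ} (hpp : p.Prime) {T₀ : ℂ}
    {μ : ℕ} (hμ : 0 < μ) (hP : IsPoleOfOrder (poincare p f) T₀ μ) {b : Polynomial ℂ}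
    (hb0 : b ≠ 0) (hb : IsBFunction (toC f) b) :
    μ ≤ b.rootMultiplicity ((-Real.log ‖T₀‖ / Real.log p : ℝ) : ℂ) := by
  have : Fact p.Prime := ⟨hpp⟩
  rcases Nat.eq_zero_or_pos κ with rfl | hκ
  · -- `f` itself is sparse up to an isomorphism
    have h1 := (fol_chain f).iso _ _ ψ 0 _ (fol_stab f 0)
    set e := (renameEquiv ℤ (Equiv.sumEmpty (Fin n) (Fin 0 ⊕ Fin 0)).symm).trans ψ with he
    have h2 : e f = ∑ j, C (a j) * ∏ i, X i ^ v j i := by
      rw [← hψ, he]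
      show ψ (renameEquiv ℤ (Equiv.sumEmpty (Fin n) (Fin 0 ⊕ Fin 0)).symm f) = ψ (stabS f 0)
      congr 1
      unfold stabS
      rw [renameEquiv_apply, Finset.univ_eq_empty, Finset.sum_empty, add_zero]
      rfl
    have h3 := isBFunction_iso (isoC e) hb
    rw [isoC_toC] at h3
    rw [← poincare_iso p e f] at hP
    exact Pool.Agent.TH216.EP.indEP hr v hv a ha _ h2 hpp T₀ μ hμ hP b hb0 h3
  · obtain ⟨B, μ₁, hB0, hB, hQ, h1, -⟩ := down hf hκ ψ hψ p hμ hP hb0 hb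
    refine h1 fun h2 => ?_
    exact Pool.Agent.TH216.EP.indEP hr v hv a ha _ rfl hpp _ μ₁ h2 hQ B hB0 hB

end Pool.Agent.Y229.PA
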